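import Pool.Agent.R566.Prophet.Prob

set_option autoImplicit false

open MeasureTheory
open scoped ENNReal BigOperators

namespace Pool.Agent.R566.Prophet

/-! ### The expected value of the first active edge at a private vertex -/

open Classical in
/-- One step. -/
lemma one_step {q u R : ℝ} {t : EReal} (_h0 : 0 ≤ q) (h1 : q ≤ 1) (hu : 0 ≤ u) (hR : 0 ≤ R) :
    ∑ b : Bool, (if b then q else 1 - q) *
      (if t ≤ ((if b then u else 0 : ℝ) : EReal) then (if b then u else 0) else R) ≤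
    (if t ≤ (u : EReal) then 1 else 0) * (q * u) +
      (1 - (if t ≤ (u : EReal) then 1 else 0) * q) * R := by
  rw [Fintype.sum_bool]
  by_cases h : t ≤ (u : EReal)
  · by_cases h2 : t ≤ ((0 : ℝ) : EReal)
    · simp only [if_true, Bool.false_eq_true, if_false, if_pos h, if_pos h2]
      have : 0 ≤ (1 - q) * R := mul_nonneg (by linarith) hR
      nlinarith
    · simp only [if_true, Bool.false_eq_true, if_false, if_pos h, if_neg h2]
      nlinarith
  · have h2 : ¬ t ≤ ((0 : ℝ) : EReal) := by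
      intro h2
      exact h (h2.trans (by exact_mod_cast hu))
    simp only [if_true, Bool.false_eq_true, if_false, if_neg h, if_neg h2]
    nlinarith

open Classical in
/-- The value of the first active edge, as a function of the outcome at the private vertex. -/
noncomputable def fv (ε : ℝ) (T : Fin 4 → EReal) (b : Fin 4 → Bool) : ℝ :=
  if T 0 ≤ ((if b 0 then vp ε 0 else 0 : ℝ) : EReal) then (if b 0 then vp ε 0 else 0) else
  if T 1 ≤ ((if b 1 then vp ε 1 else 0 : ℝ) : EReal) then (if b 1 then vp ε 1 else 0) else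
  if T 2 ≤ ((if b 2 then vp ε 2 else 0 : ℝ) : EReal) then (if b 2 then vp ε 2 else 0) else
  if T 3 ≤ ((if b 3 then vp ε 3 else 0 : ℝ) : EReal) then (if b 3 then vp ε 3 else 0) else 0

open Classical in
/-- Indicator that the threshold of position `p` can be reached. -/
noncomputable def sI (ε : ℝ) (T : Fin 4 → EReal) (p : Fin 4) : ℝ :=
  if T p ≤ (vp ε p : EReal) then 1 else 0

lemma sI_nonneg (ε : ℝ) (T : Fin 4 → EReal) (p : Fin 4) : 0 ≤ sI ε T p := by
  unfold sI; split_ifs <;> norm_num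

lemma sI_le_one (ε : ℝ) (T : Fin 4 → EReal) (p : Fin 4) : sI ε T p ≤ 1 := by
  unfold sI; split_ifs <;> norm_num

/-- The bound for the expected value, as a function of the set of usable positions. -/
noncomputable def phi (s : Fin 4 → ℝ) : ℝ :=
  1 - (1 - s 0 / 2) * (1 - s 1 / 2) * (1 - (s 2 + s 3) / 2)

lemma fv_bound {ε : ℝ} (h0 : 0 < ε) (h1 : ε ≤ 1) (T : Fin 4 → EReal) :
    ∑ b, wb ε b * fv ε T b ≤ phi (sI ε T) := by
  classical
  have hw : ∀ b : Fin 4 → Bool, wb ε b = (if b 0 then (1 / 2 : ℝ) else 1 - 1 / 2) *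
      ((if b 1 then (1 / 2 : ℝ) else 1 - 1 / 2) *
      ((if b 2 then ε else 1 - ε) * (if b 3 then ε else 1 - ε))) := by
    intro b
    rw [wb_eq]
    split_ifs <;> ring
  have hv0 : vp ε 0 = 1 := by simp [vp]
  have hv1 : vp ε 1 = 1 := by simp [vp]
  have hv2 : vp ε 2 = 1 / (2 * ε) := by simp [vp]
  have hv3 : vp ε 3 = 1 / (2 * ε) := by simp [vp]
  simp_rw [hw]
  unfold fv
  rw [sum_four (fun b0 b1 b2 b3 => ((if b0 then (1 / 2 : ℝ) else 1 - 1 / 2) *
      ((if b1 then (1 / 2 : ℝ) else 1 - 1 / 2) *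
      ((if b2 then ε else 1 - ε) * (if b3 then ε else 1 - ε)))) *
    (if T 0 ≤ ((if b0 then vp ε 0 else 0 : ℝ) : EReal) then (if b0 then vp ε 0 else 0) else
    if T 1 ≤ ((if b1 then vp ε 1 else 0 : ℝ) : EReal) then (if b1 then vp ε 1 else 0) else
    if T 2 ≤ ((if b2 then vp ε 2 else 0 : ℝ) : EReal) then (if b2 then vp ε 2 else 0) else
    if T 3 ≤ ((if b3 then vp ε 3 else 0 : ℝ) : EReal) then (if b3 then vp ε 3 else 0) else 0))]
  -- position 3
  set R3 : ℝ := ∑ b3 : Bool, (if b3 then ε else 1 - ε) *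
    (if T 3 ≤ ((if b3 then vp ε 3 else 0 : ℝ) : EReal) then (if b3 then vp ε 3 else 0) else 0)
    with hR3
  have hvp : (0 : ℝ) ≤ 1 / (2 * ε) := by positivity
  have hR3n : 0 ≤ R3 := by
    rw [hR3]
    apply Finset.sum_nonneg
    intro b _
    apply mul_nonneg
    · split_ifs <;> linarith
    · rw [hv3]; split_ifs <;> linarith
  have hR3b : R3 ≤ sI ε T 3 / 2 := by
    have h := one_step (q := ε) (u := vp ε 3) (R := 0) (t := T 3) h0.le h1 (by rw [hv3]; exact hvp)
      le_rfl
    have h2 : ε * vp ε 3 = 1 / 2 := by rw [hv3]; field_simp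
    rw [h2] at h
    unfold sI
    linarith
  -- position 2
  set R2 : ℝ := ∑ b2 : Bool, (if b2 then ε else 1 - ε) *
    (if T 2 ≤ ((if b2 then vp ε 2 else 0 : ℝ) : EReal) then (if b2 then vp ε 2 else 0) else R3)
    with hR2
  have hR2n : 0 ≤ R2 := by
    rw [hR2]
    apply Finset.sum_nonneg
    intro b _
    apply mul_nonneg
    · split_ifs <;> linarith
    · rw [hv2]; split_ifs <;> linarith
  have hR2b : R2 ≤ (sI ε T 2 + sI ε T 3) / 2 := by
    have h := one_step (q := ε) (u := vp ε 2) (R := R3) (t := T 2) h0.le h1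
      (by rw [hv2]; exact hvp) hR3n
    have h2 : ε * vp ε 2 = 1 / 2 := by rw [hv2]; field_simp
    rw [h2] at h
    have h3 : (1 - sI ε T 2 * ε) * R3 ≤ R3 := by
      have : 0 ≤ sI ε T 2 * ε * R3 :=
        mul_nonneg (mul_nonneg (sI_nonneg _ _ _) h0.le) hR3n
      nlinarith
    have h4 : R2 ≤ sI ε T 2 * (1 / 2) + (1 - sI ε T 2 * ε) * R3 := h
    linarith
  -- position 1
  set R1 : ℝ := ∑ b1 : Bool, (if b1 then (1 / 2 : ℝ) else 1 - 1 / 2) *
    (if T 1 ≤ ((if b1 then vp ε 1 else 0 : ℝ) : EReal) then (if b1 then vp ε 1 else 0) else R2)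
    with hR1
  have hR1n : 0 ≤ R1 := by
    rw [hR1]
    apply Finset.sum_nonneg
    intro b _
    apply mul_nonneg
    · split_ifs <;> norm_num
    · rw [hv1]; split_ifs <;> linarith
  have hR1b : R1 ≤ sI ε T 1 / 2 + (1 - sI ε T 1 / 2) * R2 := by
    have h := one_step (q := 1 / 2) (u := vp ε 1) (R := R2) (t := T 1) (by norm_num) (by norm_num)
      (by rw [hv1]; norm_num) hR2n
    have h4 : R1 ≤ sI ε T 1 * (1 / 2 * vp ε 1) + (1 - sI ε T 1 * (1 / 2)) * R2 := h
    rw [hv1] at h4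
    linarith
  -- position 0
  have h5 : (∑ b0 : Bool, (if b0 then (1 / 2 : ℝ) else 1 - 1 / 2) *
    (if T 0 ≤ ((if b0 then vp ε 0 else 0 : ℝ) : EReal) then (if b0 then vp ε 0 else 0) else R1))
      ≤ sI ε T 0 / 2 + (1 - sI ε T 0 / 2) * R1 := by
    have h := one_step (q := 1 / 2) (u := vp ε 0) (R := R1) (t := T 0) (by norm_num) (by norm_num)
      (by rw [hv0]; norm_num) hR1n
    have h4 : (∑ b0 : Bool, (if b0 then (1 / 2 : ℝ) else 1 - 1 / 2) *
      (if T 0 ≤ ((if b0 then vp ε 0 else 0 : ℝ) : EReal) then (if b0 then vp ε 0 else 0) else R1))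
      ≤ sI ε T 0 * (1 / 2 * vp ε 0) + (1 - sI ε T 0 * (1 / 2)) * R1 := h
    rw [hv0] at h4 ⊢
    linarith
  have key : (∑ b0 : Bool, ∑ b1 : Bool, ∑ b2 : Bool, ∑ b3 : Bool,
      ((if b0 then (1 / 2 : ℝ) else 1 - 1 / 2) *
      ((if b1 then (1 / 2 : ℝ) else 1 - 1 / 2) *
      ((if b2 then ε else 1 - ε) * (if b3 then ε else 1 - ε)))) *
    (if T 0 ≤ ((if b0 then vp ε 0 else 0 : ℝ) : EReal) then (if b0 then vp ε 0 else 0) else
    if T 1 ≤ ((if b1 then vp ε 1 else 0 : ℝ) : EReal) then (if b1 then vp ε 1 else 0) else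
    if T 2 ≤ ((if b2 then vp ε 2 else 0 : ℝ) : EReal) then (if b2 then vp ε 2 else 0) else
    if T 3 ≤ ((if b3 then vp ε 3 else 0 : ℝ) : EReal) then (if b3 then vp ε 3 else 0) else 0)) =
    ∑ b0 : Bool, (if b0 then (1 / 2 : ℝ) else 1 - 1 / 2) *
    (if T 0 ≤ ((if b0 then vp ε 0 else 0 : ℝ) : EReal) then (if b0 then vp ε 0 else 0) else R1) := by
    apply Finset.sum_congr rfl
    intro b0 _
    by_cases g0 : T 0 ≤ ((if b0 then vp ε 0 else 0 : ℝ) : EReal)
    · simp only [if_pos g0]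
      simp only [Fintype.sum_bool, if_true, Bool.false_eq_true, if_false]
      ring
    · simp only [if_neg g0]
      rw [hR1, Finset.mul_sum]
      apply Finset.sum_congr rfl
      intro b1 _
      by_cases g1 : T 1 ≤ ((if b1 then vp ε 1 else 0 : ℝ) : EReal)
      · simp only [if_pos g1]
        simp only [Fintype.sum_bool, if_true, Bool.false_eq_true, if_false]
        ring
      · simp only [if_neg g1]
        rw [hR2, Finset.mul_sum, Finset.mul_sum]
        apply Finset.sum_congr rfl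
        intro b2 _
        by_cases g2 : T 2 ≤ ((if b2 then vp ε 2 else 0 : ℝ) : EReal)
        · simp only [if_pos g2]
          simp only [Fintype.sum_bool, if_true, Bool.false_eq_true, if_false]
          ring
        · simp only [if_neg g2]
          rw [hR3, Finset.mul_sum, Finset.mul_sum, Finset.mul_sum]
          apply Finset.sum_congr rfl
          intro b3 _
          ring
  rw [key]
  refine h5.trans ?_
  unfold phi
  have hs0 := sI_le_one ε T 0
  have hs1 := sI_le_one ε T 1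
  have hs0' := sI_nonneg ε T 0
  have hs1' := sI_nonneg ε T 1
  have a1 : R1 ≤ sI ε T 1 / 2 + (1 - sI ε T 1 / 2) * ((sI ε T 2 + sI ε T 3) / 2) :=
    hR1b.trans (by
      have : (1 - sI ε T 1 / 2) * R2 ≤ (1 - sI ε T 1 / 2) * ((sI ε T 2 + sI ε T 3) / 2) :=
        mul_le_mul_of_nonneg_left hR2b (by linarith)
      linarith)
  have a2 : (1 - sI ε T 0 / 2) * R1 ≤ (1 - sI ε T 0 / 2) *
      (sI ε T 1 / 2 + (1 - sI ε T 1 / 2) * ((sI ε T 2 + sI ε T 3) / 2)) :=
    mul_le_mul_of_nonneg_left a1 (by linarith)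
  linarith

/-! ### Two edges at a private vertex both have nonzero values -/

lemma wgt_prod {E : Type} [Fintype E] [DecidableEq E] (q : E → ℝ) (g : E → Bool → ℝ) :
    ∑ ω, wgt q ω * ∏ e, g e (ω e) = ∏ e, (q e * g e true + (1 - q e) * g e false) := by
  unfold wgt
  have h := Finset.prod_univ_sum (fun _ : E => (Finset.univ : Finset Bool))
    (fun e b => (if b = true then q e else 1 - q e) * g e b)
  rw [Fintype.piFinset_univ] at h
  simp only [Fintype.sum_bool, if_true, Bool.false_eq_true, if_false] at h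
  rw [h]
  apply Finset.sum_congr rfl
  intro ω _
  rw [Finset.prod_mul_distrib]

/-- Indicator that not both of two edges have nonzero values. -/
noncomputable def nb (p p' : Fin 4) (b : Fin 4 → Bool) : ℝ :=
  if b p = true ∧ b p' = true then 0 else 1

lemma nb_nonneg (p p' : Fin 4) (b : Fin 4 → Bool) : 0 ≤ nb p p' b := by
  unfold nb; split_ifs <;> norm_num

lemma nb_sum {ε : ℝ} (h0 : 0 < ε) (h1 : ε ≤ 1 / 2) (p p' : Fin 4) (hp : p ≠ p') :
    ∑ b, wb ε b * nb p p' b ≤ 1 - ε ^ 2 := by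
  have h2 : ∀ b : Fin 4 → Bool, nb p p' b =
      1 - ∏ e, (if e = p ∨ e = p' then (if b e = true then (1 : ℝ) else 0) else 1) := by
    intro b
    unfold nb
    by_cases hb : b p = true ∧ b p' = true
    · rw [if_pos hb, Finset.prod_eq_one]
      · ring
      · intro e _
        by_cases he : e = p ∨ e = p'
        · rw [if_pos he]
          rcases he with rfl | rfl
          · rw [if_pos hb.1]
          · rw [if_pos hb.2]
        · rw [if_neg he]
    · rw [if_neg hb]
      have h3 : ∃ e, (e = p ∨ e = p') ∧ b e ≠ true := by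
        by_contra hcon
        push Not at hcon
        exact hb ⟨hcon p (Or.inl rfl), hcon p' (Or.inr rfl)⟩
      obtain ⟨e, he, hbe⟩ := h3
      rw [Finset.prod_eq_zero (Finset.mem_univ e)]
      · ring
      · rw [if_pos he, if_neg hbe]
  have h3 : ∑ b, wb ε b * nb p p' b = 1 - ∑ b, wgt (qp ε) b *
      ∏ e, (fun (e : Fin 4) (c : Bool) =>
        if e = p ∨ e = p' then (if c = true then (1 : ℝ) else 0) else 1) e (b e) := by
    have h4 : ∀ b, wb ε b * nb p p' b = wb ε b - wgt (qp ε) b *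
      ∏ e, (fun (e : Fin 4) (c : Bool) =>
        if e = p ∨ e = p' then (if c = true then (1 : ℝ) else 0) else 1) e (b e) := by
      intro b
      rw [h2 b]
      unfold wb
      ring
    simp_rw [h4]
    rw [Finset.sum_sub_distrib, sum_wb]
  rw [h3, wgt_prod (qp ε) (fun (e : Fin 4) (c : Bool) =>
        if e = p ∨ e = p' then (if c = true then (1 : ℝ) else 0) else 1)]
  have h5 : ∏ e, (qp ε e * (if e = p ∨ e = p' then (if (true = true) then (1 : ℝ) else 0) else 1) +
      (1 - qp ε e) * (if e = p ∨ e = p' then (if (false = true) then (1 : ℝ) else 0) else 1)) =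
      qp ε p * qp ε p' := by
    have h6 : ∀ e, (qp ε e * (if e = p ∨ e = p' then (if (true = true) then (1 : ℝ) else 0) else 1) +
      (1 - qp ε e) * (if e = p ∨ e = p' then (if (false = true) then (1 : ℝ) else 0) else 1)) =
      if e ∈ ({p, p'} : Finset (Fin 4)) then qp ε e else 1 := by
      intro e
      by_cases he : e = p ∨ e = p'
      · have he' : e ∈ ({p, p'} : Finset (Fin 4)) := by simpa using he
        rw [if_pos he, if_pos he, if_pos he']
        simp
      · have he' : e ∉ ({p, p'} : Finset (Fin 4)) := by simpa using he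
        rw [if_neg he, if_neg he, if_neg he']
        ring
    rw [Finset.prod_congr rfl (fun e _ => h6 e), Finset.prod_ite_mem, Finset.univ_inter,
      Finset.prod_pair hp]
  rw [h5]
  have h7 : ∀ p, ε ≤ qp ε p := by
    intro p
    unfold qp
    split_ifs <;> linarith
  have h8 : ε * ε ≤ qp ε p * qp ε p' := mul_le_mul (h7 p) (h7 p') h0.le (h0.le.trans (h7 p))
  nlinarith

/-! ### The finite inequality -/

/-- The position of a hub for a private vertex of a given type. -/
def posAt : Fin 6 → Fin 4 → Fin 4 :=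
  ![![0, 1, 2, 3], ![0, 2, 1, 3], ![0, 2, 3, 1], ![2, 0, 1, 3], ![2, 0, 3, 1], ![2, 3, 0, 1]]

lemma posAt_hubAt : ∀ τ p, posAt τ (hubAt τ p) = p := by decide

lemma hubAt_posAt : ∀ τ h, hubAt τ (posAt τ h) = h := by decide

/-- Indicator. -/
def tI (τ : Fin 6) (l : Fin 4 → Fin 4) (c : Fin 4) (p : Fin 4) : ℕ :=
  if l (hubAt τ p) = c then 1 else 0

/-- Eight times the bound for a private vertex of type `τ` that uses the hubs with label `c`. -/
def phi8 (τ : Fin 6) (l : Fin 4 → Fin 4) (c : Fin 4) : ℕ :=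
  8 - (2 - tI τ l c 0) * (2 - tI τ l c 1) * (2 - (tI τ l c 2 + tI τ l c 3))

/-- The best label for a private vertex of type `τ`. -/
def Phi (τ : Fin 6) (l : Fin 4 → Fin 4) : ℕ := Finset.univ.sup (phi8 τ l)

lemma table : ∀ l : Fin 4 → Fin 4,
    (∑ τ, Phi τ l) + 7 * (Finset.univ.image l).card ≤ 59 := by
  decide +kernel

lemma phi_le {s : Fin 4 → ℝ} (h0 : ∀ p, 0 ≤ s p) (τ : Fin 6) (l : Fin 4 → Fin 4)
    (c : Fin 4) (h : ∀ p, s p ≤ tI τ l c p) : phi s ≤ (Phi τ l : ℝ) / 8 := by
  have h1 : phi8 τ l c ≤ Phi τ l := Finset.le_sup (f := phi8 τ l) (Finset.mem_univ c)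
  have h1' : (phi8 τ l c : ℝ) ≤ Phi τ l := by exact_mod_cast h1
  have ht : ∀ p, tI τ l c p = 0 ∨ tI τ l c p = 1 := by
    intro p; unfold tI; split_ifs <;> simp
  have h2 : (phi8 τ l c : ℝ) = 8 - (2 - (tI τ l c 0 : ℝ)) * (2 - (tI τ l c 1 : ℝ)) *
      (2 - ((tI τ l c 2 : ℝ) + tI τ l c 3)) := by
    unfold phi8
    rcases ht 0 with a0 | a0 <;> rcases ht 1 with a1 | a1 <;> rcases ht 2 with a2 | a2 <;>
      rcases ht 3 with a3 | a3 <;> rw [a0, a1, a2, a3] <;> norm_num
  have h3 : phi s ≤ (phi8 τ l c : ℝ) / 8 := by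
    rw [h2]
    unfold phi
    have b0 := h 0
    have b1 := h 1
    have b2 := h 2
    have b3 := h 3
    have c0 := h0 0
    have c1 := h0 1
    have c2 := h0 2
    have c3 := h0 3
    have t0 : (tI τ l c 0 : ℝ) ≤ 1 := by rcases ht 0 with a | a <;> rw [a] <;> norm_num
    have t1 : (tI τ l c 1 : ℝ) ≤ 1 := by rcases ht 1 with a | a <;> rw [a] <;> norm_num
    have t2 : (tI τ l c 2 : ℝ) ≤ 1 := by rcases ht 2 with a | a <;> rw [a] <;> norm_num
    have t3 : (tI τ l c 3 : ℝ) ≤ 1 := by rcases ht 3 with a | a <;> rw [a] <;> norm_num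
    have d1 : (1 - (tI τ l c 0 : ℝ) / 2) * (1 - (tI τ l c 1 : ℝ) / 2) ≤
        (1 - s 0 / 2) * (1 - s 1 / 2) :=
      mul_le_mul (by linarith) (by linarith) (by linarith) (by linarith)
    have d2 : (1 - (tI τ l c 0 : ℝ) / 2) * (1 - (tI τ l c 1 : ℝ) / 2) *
        (1 - ((tI τ l c 2 : ℝ) + tI τ l c 3) / 2) ≤
        (1 - s 0 / 2) * (1 - s 1 / 2) * (1 - (s 2 + s 3) / 2) := by
      refine mul_le_mul d1 (by linarith) (by linarith) ?_
      exact mul_nonneg (by linarith) (by linarith)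
    linarith
  linarith

lemma phi_le_one {s : Fin 4 → ℝ} (h1 : ∀ p, s p ≤ 1) : phi s ≤ 1 := by
  unfold phi
  have b0 := h1 0
  have b1 := h1 1
  have b2 := h1 2
  have b3 := h1 3
  have : 0 ≤ (1 - s 0 / 2) * (1 - s 1 / 2) * (1 - (s 2 + s 3) / 2) :=
    mul_nonneg (mul_nonneg (by linarith) (by linarith)) (by linarith)
  linarith

end Pool.Agent.R566.Prophet
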