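import Pool.Agent.R566.Prophet.Main

set_option autoImplicit false

open MeasureTheory
open scoped ENNReal BigOperators

namespace Pool.Agent.R566.Prophet

/-! ### The prophet -/

section opt

set_option linter.unusedSectionVars false

variable {P : Type} [Fintype P] [DecidableEq P] {ty : P → Fin 6}

/-- The position of the edge that the prophet takes at a private vertex. -/
def bestPos (b : Fin 4 → Bool) : Fin 4 :=
  if b 2 then 2 else if b 3 then 3 else if b 0 then 0 else 1

open Classical in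
/-- The forest that the prophet takes. -/
noncomputable def bestSet (s : Finset P) (β : P → Fin 4 → Bool) : Finset ((P × Fin 4) ⊕ Fin 3) :=
  {Sum.inr 0, Sum.inr 1, Sum.inr 2} ∪ s.image fun i => Sum.inl (i, bestPos (β i))

lemma forest_hubs : Forest (edg ty) ({Sum.inr 0, Sum.inr 1, Sum.inr 2} :
    Finset ((P × Fin 4) ⊕ Fin 3)) := by
  classical
  have h2 : Forest (edg ty) (insert (Sum.inr 2) (∅ : Finset ((P × Fin 4) ⊕ Fin 3))) := by
    have := forest_insert_of_isolated (edg_injective ty) (F := ∅) (i := Sum.inr 2)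
      (a := Sum.inl 3) (b := Sum.inl 2) (by simp) (by
        show s(Sum.inl (2 : Fin 3).castSucc, Sum.inl (2 : Fin 3).succ) = _
        rw [Sym2.eq_swap]; rfl) (by simp) (forest_empty _) (by simp)
    exact forest_congr (fun i => by simp only [Finset.mem_insert]) this
  have h1 : Forest (edg ty) (insert (Sum.inr 1) (insert (Sum.inr 2)
      (∅ : Finset ((P × Fin 4) ⊕ Fin 3)))) := by
    have := forest_insert_of_isolated (edg_injective ty) (F := insert (Sum.inr 2) ∅)
      (i := Sum.inr 1) (a := Sum.inl 1) (b := Sum.inl 2) (by simp) (by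
        show s(Sum.inl (1 : Fin 3).castSucc, Sum.inl (1 : Fin 3).succ) = _
        rfl) (by simp) h2 (by
        intro i hi
        simp only [Finset.mem_insert, Finset.notMem_empty, or_false] at hi
        subst hi
        show Sum.inl 1 ∉ s(Sum.inl (2 : Fin 3).castSucc, Sum.inl (2 : Fin 3).succ)
        simp only [Sym2.mem_iff, Sum.inl.injEq]
        decide)
    exact forest_congr (fun i => by simp only [Finset.mem_insert]) this
  have h0 : Forest (edg ty) (insert (Sum.inr 0) (insert (Sum.inr 1) (insert (Sum.inr 2)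
      (∅ : Finset ((P × Fin 4) ⊕ Fin 3))))) := by
    have := forest_insert_of_isolated (edg_injective ty) (F := insert (Sum.inr 1)
      (insert (Sum.inr 2) ∅))
      (i := Sum.inr 0) (a := Sum.inl 0) (b := Sum.inl 1) (by simp) (by
        show s(Sum.inl (0 : Fin 3).castSucc, Sum.inl (0 : Fin 3).succ) = _
        rfl) (by simp) h1 (by
        intro i hi
        simp only [Finset.mem_insert, Finset.notMem_empty, or_false] at hi
        rcases hi with rfl | rfl
        · show Sum.inl 0 ∉ s(Sum.inl (1 : Fin 3).castSucc, Sum.inl (1 : Fin 3).succ)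
          simp only [Sym2.mem_iff, Sum.inl.injEq]
          decide
        · show Sum.inl 0 ∉ s(Sum.inl (2 : Fin 3).castSucc, Sum.inl (2 : Fin 3).succ)
          simp only [Sym2.mem_iff, Sum.inl.injEq]
          decide)
    exact forest_congr (fun i => by simp only [Finset.mem_insert]) this
  exact forest_congr (fun i => by simp only [Finset.mem_insert]; simp) h0

lemma forest_bestSet (β : P → Fin 4 → Bool) (s : Finset P) :
    Forest (edg ty) (bestSet s β) := by
  classical
  induction s using Finset.induction_on with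
  | empty =>
    unfold bestSet
    rw [Finset.image_empty, Finset.union_empty]
    exact forest_hubs
  | insert i s hi ih =>
    have h1 : bestSet (insert i s) β = insert (Sum.inl (i, bestPos (β i))) (bestSet s β) := by
      unfold bestSet
      ext e
      simp only [Finset.mem_union, Finset.mem_image, Finset.mem_insert]
      constructor
      · rintro (h | ⟨j, rfl | hj, rfl⟩)
        · exact Or.inr (Or.inl h)
        · exact Or.inl rfl
        · exact Or.inr (Or.inr ⟨j, hj, rfl⟩)
      · rintro (rfl | h | ⟨j, hj, rfl⟩)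
        · exact Or.inr ⟨i, Or.inl rfl, rfl⟩
        · exact Or.inl h
        · exact Or.inr ⟨j, Or.inr hj, rfl⟩
    rw [h1]
    have hiso : ∀ e ∈ bestSet s β, Sum.inr i ∉ edg ty e := by
      intro e he
      unfold bestSet at he
      rw [Finset.mem_union] at he
      rcases he with he | he
      · simp only [Finset.mem_insert, Finset.mem_singleton] at he
        rcases he with rfl | rfl | rfl <;> simp [edg]
      · rw [Finset.mem_image] at he
        obtain ⟨j, hj, rfl⟩ := he
        simp only [edg, Sym2.mem_iff, Sum.inr.injEq, reduceCtorEq, or_false]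
        rintro rfl
        exact hi hj
    have := forest_insert_of_isolated (edg_injective ty) (F := bestSet s β)
      (i := Sum.inl (i, bestPos (β i))) (a := Sum.inr i) (b := Sum.inl (hubAt (ty i) (bestPos (β i))))
      (by simp) rfl (by
        intro he
        exact hiso _ he (by simp [edg])) ih hiso
    exact forest_congr (fun i => by simp only [Finset.mem_insert]) this

/-- The prophet's value at one private vertex. -/
noncomputable def mm (ε : ℝ) (b : Fin 4 → Bool) : ℝ := if b (bestPos b) then vp ε (bestPos b) else 0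

lemma mm_sum {ε : ℝ} (h0 : 0 < ε) :
    ∑ b, wb ε b * mm ε b = 1 - ε / 2 + 3 / 4 * (1 - ε) ^ 2 := by
  have h1 : ∀ b : Fin 4 → Bool, mm ε b =
      if b 2 then 1 / (2 * ε) else if b 3 then 1 / (2 * ε) else if b 0 then 1 else
        if b 1 then 1 else 0 := by
    intro b
    unfold mm bestPos vp
    by_cases h2 : b 2 = true
    · simp [h2]
    · by_cases h3 : b 3 = true
      · simp [h2, h3]
      · by_cases h4 : b 0 = true
        · simp [h2, h3, h4]
        · simp [h2, h3, h4]
  simp_rw [h1, wb_eq]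
  rw [sum_four (fun b0 b1 b2 b3 => (1 / 2) * (1 / 2) * (if b2 then ε else 1 - ε) *
    (if b3 then ε else 1 - ε) * (if b2 then 1 / (2 * ε) else if b3 then 1 / (2 * ε) else
      if b0 then 1 else if b1 then 1 else 0))]
  simp only [Fintype.sum_bool, if_true, Bool.false_eq_true, if_false]
  field_simp
  ring

lemma opt_pointwise {ε C : ℝ} (ω : (P × Fin 4) ⊕ Fin 3 → Bool)
    (hω : ∀ j, ω (Sum.inr j) = true) :
    3 * C + ∑ i, mm ε (fun p => ω (Sum.inl (i, p))) =
      val (outcome (vv P ε C) ω) (bestSet Finset.univ fun i p => ω (Sum.inl (i, p))) := by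
  classical
  unfold val bestSet
  rw [Finset.sum_union]
  · congr 1
    · rw [Finset.sum_insert (by simp), Finset.sum_insert (by simp), Finset.sum_singleton]
      simp only [outcome, vv, hω, if_true]
      ring
    · rw [Finset.sum_image]
      · apply Finset.sum_congr rfl
        intro i _
        rfl
      · intro i _ j _ h
        simpa using congrArg (fun e => (Sum.elim (fun t : P × Fin 4 => some t.1)
          (fun _ => none) e)) h
  · rw [Finset.disjoint_left]
    intro e he he2
    rw [Finset.mem_image] at he2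
    obtain ⟨j, -, rfl⟩ := he2
    simp at he

end opt

/-! ### The instance -/

/-- The hard instance with `6 M` private vertices. -/
noncomputable def inst (ε : ℝ) (h0 : 0 < ε) (h1 : ε ≤ 1 / 2) (C : ℝ) (hC : 0 ≤ C) (M : ℕ) :
    Instance where
  V := Fin 4 ⊕ (Fin 6 × Fin M)
  ι := ((Fin 6 × Fin M) × Fin 4) ⊕ Fin 3
  edge := edg Prod.fst
  edge_injective := edg_injective _
  not_loop := edg_not_loop _
  order := arrival (Fin 6 × Fin M)
  order_nodup := by
    unfold arrival
    rw [List.nodup_append]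
    refine ⟨?_, ?_, ?_⟩
    · rw [List.nodup_flatMap]
      refine ⟨fun i _ => ?_, ?_⟩
      · unfold blk
        apply List.Nodup.map
        · intro p p' h
          simpa using h
        · decide
      · refine List.Pairwise.imp ?_ (Finset.nodup_toList _)
        intro i j hij
        show List.Disjoint (blk i) (blk j)
        intro e he he'
        unfold blk at he he'
        rw [List.mem_map] at he he'
        obtain ⟨p, -, rfl⟩ := he
        obtain ⟨p', -, h⟩ := he'
        simp only [Sum.inl.injEq, Prod.mk.injEq] at h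
        exact hij h.1.symm
    · unfold hubEdges
      apply List.Nodup.map Sum.inr_injective
      decide
    · intro a ha b hb
      rw [List.mem_flatMap] at ha
      obtain ⟨i, -, ha⟩ := ha
      unfold blk at ha
      unfold hubEdges at hb
      rw [List.mem_map] at ha hb
      obtain ⟨p, -, rfl⟩ := ha
      obtain ⟨j, -, rfl⟩ := hb
      simp
  mem_order := by
    rintro (⟨i, p⟩ | j)
    · unfold arrival
      rw [List.mem_append, List.mem_flatMap]
      left
      refine ⟨i, by simp, ?_⟩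
      unfold blk
      rw [List.mem_map]
      refine ⟨p, ?_, rfl⟩
      fin_cases p <;> simp
    · unfold arrival hubEdges
      rw [List.mem_append, List.mem_map]
      right
      refine ⟨j, ?_, rfl⟩
      fin_cases j <;> simp
  law := fun e => twoPoint (qq _ ε e) (vv _ ε C e)
  law_prob := by
    rintro (⟨i, p⟩ | j)
    · apply twoPoint_prob
      · show 0 ≤ qp ε p
        unfold qp; split_ifs <;> linarith
      · show qp ε p ≤ 1
        unfold qp; split_ifs <;> linarith
    · exact twoPoint_prob _ zero_le_one (le_refl _)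
  law_nonneg := by
    rintro (⟨i, p⟩ | j)
    · apply twoPoint_nonneg
      show 0 ≤ vp ε p
      unfold vp; split_ifs
      · norm_num
      · positivity
    · exact twoPoint_nonneg hC
  law_mean := by
    rintro (⟨i, p⟩ | j)
    · apply twoPoint_mean
      · show 0 ≤ qp ε p
        unfold qp; split_ifs <;> linarith
      · show qp ε p ≤ 1
        unfold qp; split_ifs <;> linarith
    · exact twoPoint_mean zero_le_one (le_refl _)

section bounds

variable {ε : ℝ} (h0 : 0 < ε) (h1 : ε ≤ 1 / 2) {C : ℝ} (hC : 0 ≤ C) (M : ℕ)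

lemma qq_nonneg (P : Type) (h0 : 0 < ε) (e : (P × Fin 4) ⊕ Fin 3) : 0 ≤ qq P ε e := by
  rcases e with ⟨i, p⟩ | j
  · show 0 ≤ qp ε p
    unfold qp; split_ifs <;> linarith
  · exact zero_le_one

lemma qq_le_one (P : Type) (h1 : ε ≤ 1 / 2) (e : (P × Fin 4) ⊕ Fin 3) : qq P ε e ≤ 1 := by
  rcases e with ⟨i, p⟩ | j
  · show qp ε p ≤ 1
    unfold qp; split_ifs <;> linarith
  · exact le_refl _

lemma vv_nonneg (P : Type) (h0 : 0 < ε) (hC : 0 ≤ C) (e : (P × Fin 4) ⊕ Fin 3) :
    0 ≤ vv P ε C e := by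
  rcases e with ⟨i, p⟩ | j
  · show 0 ≤ vp ε p
    unfold vp; split_ifs
    · norm_num
    · positivity
  · exact hC

lemma outcome_nonneg (P : Type) (h0 : 0 < ε) (hC : 0 ≤ C) (ω : (P × Fin 4) ⊕ Fin 3 → Bool)
    (e : (P × Fin 4) ⊕ Fin 3) : 0 ≤ outcome (vv P ε C) ω e := by
  unfold outcome
  split_ifs
  · exact vv_nonneg P h0 hC e
  · exact le_refl _

/-- The value of the algorithm, explicit form. -/
noncomputable def algV (M : ℕ) (T : ((Fin 6 × Fin M) × Fin 4) ⊕ Fin 3 → EReal)
    (x : ((Fin 6 × Fin M) × Fin 4) ⊕ Fin 3 → ℝ) : ℝ≥0∞ :=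
  ∑ i ∈ accepted (edg Prod.fst) (fun i => T i ≤ (x i : EReal)) (arrival (Fin 6 × Fin M)),
    ENNReal.ofReal (x i)

/-- The value of the prophet, explicit form. -/
noncomputable def optV (M : ℕ) (x : ((Fin 6 × Fin M) × Fin 4) ⊕ Fin 3 → ℝ) : ℝ≥0∞ :=
  ⨆ F : Finset (((Fin 6 × Fin M) × Fin 4) ⊕ Fin 3),
    ⨆ _ : Forest (edg (Prod.fst : Fin 6 × Fin M → Fin 6)) F, ∑ i ∈ F, ENNReal.ofReal (x i)

include h0 h1 hC

/-- The upper bound for every vector of thresholds. -/
lemma alg_le (T : ((Fin 6 × Fin M) × Fin 4) ⊕ Fin 3 → EReal) (L : ℕ) :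
    ∫⁻ x, algV M T x ∂(Measure.pi fun e => twoPoint (qq (Fin 6 × Fin M) ε e) (vv _ ε C e)) ≤
      ENNReal.ofReal ((M : ℝ) / 8 * (∑ τ, (Phi τ (lab (QQ Prod.fst ε T L)) : ℝ)) + 16 * L + 2 / ε +
      C * (kap (QQ (Prod.fst : Fin 6 × Fin M → Fin 6) ε T L) - 1) +
        3 * C * (16 * (1 - ε ^ 2) ^ L)) := by
  rw [pi_twoPoint (qq_nonneg _ h0) (qq_le_one _ h1)]
  refine (lintegral_map_le _ _).trans ?_
  have hval : ∀ ω, algV M T (outcome (vv (Fin 6 × Fin M) ε C) ω) =
      ENNReal.ofReal (val (outcome (vv (Fin 6 × Fin M) ε C) ω) (accepted (edg Prod.fst)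
      (fun e => T e ≤ (outcome (vv (Fin 6 × Fin M) ε C) ω e : EReal)) (arrival (Fin 6 × Fin M)))) := by
    intro ω
    unfold algV val
    rw [ENNReal.ofReal_sum_of_nonneg]
    intro e _
    exact outcome_nonneg _ h0 hC ω e
  simp_rw [hval]
  rw [lintegral_bern (qq_nonneg _ h0) (qq_le_one _ h1)]
  · apply ENNReal.ofReal_le_ofReal
    refine (expectation_bound h0 h1 hC T L).trans ?_
    have h2 := private_bound (ty := (Prod.fst : Fin 6 × Fin M → Fin 6)) (ε := ε) T L
    have h3 : (∑ i : Fin 6 × Fin M, (Phi i.1 (lab (QQ Prod.fst ε T L)) : ℝ) / 8) =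
        (M : ℝ) / 8 * (∑ τ, (Phi τ (lab (QQ Prod.fst ε T L)) : ℝ)) := by
      rw [Fintype.sum_prod_type, Finset.mul_sum]
      apply Finset.sum_congr rfl
      intro τ _
      show ∑ _y : Fin M, (Phi τ (lab (QQ Prod.fst ε T L)) : ℝ) / 8 = _
      rw [Finset.sum_const, Finset.card_univ, Fintype.card_fin, nsmul_eq_mul]
      ring
    rw [h3] at h2
    linarith
  · intro ω
    unfold val
    exact Finset.sum_nonneg fun e _ => outcome_nonneg _ h0 hC ω e

/-- The lower bound for the prophet. -/
lemma opt_ge :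
    ENNReal.ofReal (3 * C + 6 * M * (1 - ε / 2 + 3 / 4 * (1 - ε) ^ 2)) ≤
      ∫⁻ x, optV M x ∂(Measure.pi fun e => twoPoint (qq (Fin 6 × Fin M) ε e) (vv _ ε C e)) := by
  classical
  rw [pi_twoPoint (qq_nonneg _ h0) (qq_le_one _ h1)]
  have hmeas : Measurable (optV M) := by
    unfold optV
    refine Measurable.iSup fun F => ?_
    refine Measurable.iSup fun _ => ?_
    exact Finset.measurable_sum _ fun i _ => (measurable_pi_apply i).ennreal_ofReal
  rw [lintegral_map hmeas (measurable_of_finite _)]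
  have hge : ∀ ω : ((Fin 6 × Fin M) × Fin 4) ⊕ Fin 3 → Bool, (∀ j, ω (Sum.inr j) = true) →
      ENNReal.ofReal (3 * C + ∑ i, mm ε (fun p => ω (Sum.inl (i, p)))) ≤
      optV M (outcome (vv (Fin 6 × Fin M) ε C) ω) := by
    intro ω hω
    rw [opt_pointwise ω hω]
    unfold optV
    refine le_trans ?_ (le_iSup₂ (f := fun (F : Finset (((Fin 6 × Fin M) × Fin 4) ⊕ Fin 3))
      (_ : Forest (edg (Prod.fst : Fin 6 × Fin M → Fin 6)) F) =>
        ∑ i ∈ F, ENNReal.ofReal (outcome (vv (Fin 6 × Fin M) ε C) ω i))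
      (bestSet Finset.univ fun i p => ω (Sum.inl (i, p)))
      (forest_bestSet (ty := (Prod.fst : Fin 6 × Fin M → Fin 6)) _ _))
    unfold val
    rw [ENNReal.ofReal_sum_of_nonneg]
    intro e _
    exact outcome_nonneg _ h0 hC ω e
  set H : (((Fin 6 × Fin M) × Fin 4) ⊕ Fin 3 → Bool) → ℝ := fun ω =>
    if (∀ j, ω (Sum.inr j) = true) then 3 * C + ∑ i, mm ε (fun p => ω (Sum.inl (i, p))) else 0
    with hH
  have hmm0 : ∀ b, 0 ≤ mm ε b := by
    intro b
    unfold mm vp
    split_ifs
    · norm_num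
    · positivity
    · exact le_refl _
  have hH0 : ∀ ω, 0 ≤ H ω := by
    intro ω
    rw [hH]
    simp only
    split_ifs
    · have : 0 ≤ ∑ i, mm ε (fun p => ω (Sum.inl (i, p))) :=
        Finset.sum_nonneg fun i _ => hmm0 _
      linarith
    · exact le_refl _
  have hle : ∫⁻ ω, ENNReal.ofReal (H ω) ∂(Measure.pi fun e => bern (qq (Fin 6 × Fin M) ε e)) ≤
      ∫⁻ ω, optV M (outcome (vv (Fin 6 × Fin M) ε C) ω)
        ∂(Measure.pi fun e => bern (qq (Fin 6 × Fin M) ε e)) := by
    apply lintegral_mono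
    intro ω
    simp only [hH]
    split_ifs with h
    · exact hge ω h
    · simp
  refine le_trans ?_ hle
  rw [lintegral_bern (qq_nonneg _ h0) (qq_le_one _ h1) H hH0]
  apply ENNReal.ofReal_le_ofReal
  have h2 : ∀ ω, wgt (qq (Fin 6 × Fin M) ε) ω * H ω = wgt (qq (Fin 6 × Fin M) ε) ω *
      ((fun β : Fin 6 × Fin M → Fin 4 → Bool => 3 * C + ∑ i, mm ε (β i))
        (fun i p => ω (Sum.inl (i, p)))) := by
    intro ω
    simp only [hH]
    split_ifs with h
    · rfl
    · push Not at h
      obtain ⟨j, hj⟩ := h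
      have h3 : wgt (qq (Fin 6 × Fin M) ε) ω = 0 := by
        unfold wgt
        apply Finset.prod_eq_zero (Finset.mem_univ (Sum.inr j))
        rw [if_neg hj]
        show 1 - (1 : ℝ) = 0
        norm_num
      rw [h3]
      ring
  have h4 := sum_eq_Ex (P := Fin 6 × Fin M) ε
    (fun β : Fin 6 × Fin M → Fin 4 → Bool => 3 * C + ∑ i, mm ε (β i))
  rw [Finset.sum_congr rfl fun ω _ => h2 ω]
  refine le_of_le_of_eq ?_ h4.symm
  rw [Ex_add, Ex_const, Ex_sum]
  have h3 : ∀ i : Fin 6 × Fin M, Ex ε (fun β : Fin 6 × Fin M → Fin 4 → Bool => mm ε (β i)) =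
      1 - ε / 2 + 3 / 4 * (1 - ε) ^ 2 := by
    intro i
    rw [Ex_single ε i (mm ε), mm_sum h0]
  simp_rw [h3]
  rw [Finset.sum_const, Finset.card_univ, Fintype.card_prod, Fintype.card_fin, Fintype.card_fin,
    nsmul_eq_mul]
  push_cast
  linarith

end bounds

/-- The main estimate. -/
theorem main : ∃ I : Instance, 0 < expOpt I ∧
    ∀ T : I.ι → EReal, ENNReal.ofReal (201 / 100) *
      (∫⁻ x, algValue I T x ∂(Measure.pi I.law)) ≤ expOpt I := by
  have h0 : (0 : ℝ) < 1 / 1000 := by norm_num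
  have h1 : (1 / 1000 : ℝ) ≤ 1 / 2 := by norm_num
  obtain ⟨L, hL⟩ : ∃ L : ℕ, (1 - (1 / 1000 : ℝ) ^ 2) ^ L < 1 / 42000 :=
    exists_pow_lt_of_lt_one (by norm_num) (by norm_num)
  obtain ⟨M, hM⟩ : ∃ M : ℕ, M = 1000 * (16 * L + 2000) := ⟨_, rfl⟩
  have hMr : (M : ℝ) = 1000 * (16 * L + 2000) := by rw [hM]; push_cast; ring
  have hL0 : (0 : ℝ) ≤ L := Nat.cast_nonneg L
  have hC : (0 : ℝ) ≤ 7 * M / 8 := by positivity
  have hopt := opt_ge h0 h1 hC M
  have hlow : (13.113 : ℝ) * M ≤ 3 * (7 * M / 8) +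
      6 * M * (1 - (1 / 1000 : ℝ) / 2 + 3 / 4 * (1 - 1 / 1000) ^ 2) := by
    have hM0 : (0 : ℝ) ≤ M := Nat.cast_nonneg M
    nlinarith
  refine ⟨inst (1 / 1000) h0 h1 (7 * M / 8) hC M, ?_, ?_⟩
  · refine lt_of_lt_of_le ?_ hopt
    rw [ENNReal.ofReal_pos]
    refine lt_of_lt_of_le ?_ hlow
    rw [hMr]
    positivity
  · intro T
    refine le_trans ?_ hopt
    have halg := alg_le h0 h1 hC M T L
    refine le_trans (mul_le_mul_right halg _) ?_
    rw [← ENNReal.ofReal_mul (by norm_num)]
    apply ENNReal.ofReal_le_ofReal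
    refine le_trans ?_ hlow
    set Q := QQ (Prod.fst : Fin 6 × Fin M → Fin 6) (1 / 1000) T L with hQ
    have ht : (∑ τ, (Phi τ (lab Q) : ℝ)) + 7 * (kap Q : ℝ) ≤ 59 := by
      have := table (lab Q)
      rw [card_lab] at this
      exact_mod_cast this
    have hM0 : (0 : ℝ) ≤ M := Nat.cast_nonneg M
    have h5 : 3 * (7 * (M : ℝ) / 8) * (16 * (1 - (1 / 1000 : ℝ) ^ 2) ^ L) ≤ M / 1000 := by
      have : 3 * (7 * (M : ℝ) / 8) * (16 * (1 - (1 / 1000 : ℝ) ^ 2) ^ L) =
        42 * M * (1 - (1 / 1000 : ℝ) ^ 2) ^ L := by ring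
      rw [this]
      have h6 := mul_le_mul_of_nonneg_left hL.le (by positivity : (0 : ℝ) ≤ 42 * M)
      linarith
    have h6 : (M : ℝ) / 8 * (∑ τ, (Phi τ (lab Q) : ℝ)) + 7 * M / 8 * ((kap Q : ℝ) - 1) ≤
        6.5 * M := by
      have := mul_le_mul_of_nonneg_left ht (by positivity : (0 : ℝ) ≤ M / 8)
      linarith
    have h7 : 16 * (L : ℝ) + 2 / (1 / 1000) ≤ M / 1000 := by
      rw [hMr]; linarith
    linarith

end Pool.Agent.R566.Prophet
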