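import Pool.Agent.R566.Prophet.Model

set_option autoImplicit false

open MeasureTheory
open scoped ENNReal

namespace Pool.Agent.R566.Prophet

variable {V ι : Type}

open Classical in
lemma graph_insert (edge : ι → Sym2 V) (F : Finset ι) (i : ι) (a b : V) (h : edge i = s(a, b)) :
    graph edge (insert i F) = graph edge F ⊔ SimpleGraph.edge a b := by
  unfold graph SimpleGraph.edge
  rw [Finset.coe_insert, Set.image_insert_eq, h, Set.insert_eq, Set.union_comm]
  ext x y
  simp only [SimpleGraph.fromEdgeSet_adj, SimpleGraph.sup_adj, Set.mem_union]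
  tauto

lemma graph_mono (edge : ι → Sym2 V) {F F' : Finset ι} (h : F ⊆ F') :
    graph edge F ≤ graph edge F' := by
  unfold graph
  apply SimpleGraph.fromEdgeSet_mono
  exact Set.image_mono (by exact_mod_cast h)

open Classical in
/-- The step lemma: adding an edge that is not yet there keeps the forest property iff its end points
are not connected. -/
lemma forest_insert {edge : ι → Sym2 V} (hinj : Function.Injective edge) {F : Finset ι} {i : ι}
    {a b : V} (hab : a ≠ b) (h : edge i = s(a, b)) (hi : i ∉ F) (hF : Forest edge F) :
    Forest edge (insert i F) ↔ ¬ (graph edge F).Reachable a b := by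
  unfold Forest at hF ⊢
  rw [graph_insert edge F i a b h, SimpleGraph.isAcyclic_sup_fromEdgeSet_iff]
  constructor
  · rintro ⟨-, h2⟩ h3
    rcases h2 h3 with h4 | h4
    · exact hab h4
    · unfold graph at h4
      rw [SimpleGraph.fromEdgeSet_adj] at h4
      obtain ⟨⟨j, hj, hj2⟩, -⟩ := h4
      rw [← h] at hj2
      have := hinj hj2
      subst this
      exact hi (by exact_mod_cast hj)
  · intro h2
    exact ⟨hF, fun h3 => absurd h3 h2⟩

lemma reachable_insert {edge : ι → Sym2 V} {F : Finset ι} {i : ι} [DecidableEq ι]
    {a b : V} (hab : a ≠ b) (h : edge i = s(a, b)) :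
    (graph edge (insert i F)).Reachable a b := by
  apply SimpleGraph.Adj.reachable
  unfold graph
  rw [SimpleGraph.fromEdgeSet_adj]
  exact ⟨⟨i, by simp, h⟩, hab⟩

lemma reachable_mono {edge : ι → Sym2 V} {F F' : Finset ι} (h : F ⊆ F') {a b : V}
    (hr : (graph edge F).Reachable a b) : (graph edge F').Reachable a b :=
  hr.mono (graph_mono edge h)

/-- A vertex without edges of `F` is connected only to itself. -/
lemma eq_of_reachable_of_isolated {edge : ι → Sym2 V} {F : Finset ι} {v u : V}
    (hv : ∀ i ∈ F, v ∉ edge i) (h : (graph edge F).Reachable v u) : u = v := by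
  obtain ⟨p⟩ := h
  cases p with
  | nil => rfl
  | cons hadj p =>
    exfalso
    unfold graph at hadj
    rw [SimpleGraph.fromEdgeSet_adj] at hadj
    obtain ⟨⟨i, hi, hi2⟩, -⟩ := hadj
    apply hv i (by exact_mod_cast hi)
    rw [hi2]
    simp

open Classical in
lemma forest_insert_of_isolated {edge : ι → Sym2 V} (hinj : Function.Injective edge)
    {F : Finset ι} {i : ι} {a b : V} (hab : a ≠ b) (h : edge i = s(a, b)) (hi : i ∉ F)
    (hF : Forest edge F) (hv : ∀ i ∈ F, a ∉ edge i) : Forest edge (insert i F) := by
  rw [forest_insert hinj hab h hi hF]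
  intro hr
  exact hab (eq_of_reachable_of_isolated hv hr).symm

lemma forest_congr {edge : ι → Sym2 V} {F F' : Finset ι} (h : ∀ i, i ∈ F ↔ i ∈ F')
    (hF : Forest edge F) : Forest edge F' := by
  have : F = F' := Finset.ext h
  exact this ▸ hF

lemma reachable_congr {edge : ι → Sym2 V} {F F' : Finset ι} {a b : V} (h : ∀ i, i ∈ F ↔ i ∈ F')
    (hF : (graph edge F).Reachable a b) : (graph edge F').Reachable a b := by
  have : F = F' := Finset.ext h
  exact this ▸ hF

lemma forest_empty (edge : ι → Sym2 V) : Forest edge ∅ := by
  unfold Forest graph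
  simp

/-! ### The greedy process -/

open Classical in
/-- One step of the process. -/
noncomputable def stp (edge : ι → Sym2 V) (act : ι → Prop) (F : Finset ι) (i : ι) : Finset ι :=
  if act i ∧ Forest edge (insert i F) then insert i F else F

lemma accepted_eq (edge : ι → Sym2 V) (act : ι → Prop) (L : List ι) :
    accepted edge act L = L.foldl (stp edge act) ∅ := rfl

lemma subset_stp (edge : ι → Sym2 V) (act : ι → Prop) (F : Finset ι) (i : ι) :
    F ⊆ stp edge act F i := by
  unfold stp
  split_ifs
  · intro x hx; simp [hx]
  · exact Finset.Subset.refl _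

lemma forest_stp {edge : ι → Sym2 V} (act : ι → Prop) {F : Finset ι} (i : ι)
    (hF : Forest edge F) : Forest edge (stp edge act F i) := by
  unfold stp
  split_ifs with h
  · exact h.2
  · exact hF

lemma subset_foldl (edge : ι → Sym2 V) (act : ι → Prop) (L : List ι) (F : Finset ι) :
    F ⊆ L.foldl (stp edge act) F := by
  induction L generalizing F with
  | nil => exact Finset.Subset.refl _
  | cons i L ih => exact (subset_stp edge act F i).trans (ih _)

lemma forest_foldl {edge : ι → Sym2 V} (act : ι → Prop) (L : List ι) {F : Finset ι}
    (hF : Forest edge F) : Forest edge (L.foldl (stp edge act) F) := by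
  induction L generalizing F with
  | nil => exact hF
  | cons i L ih => exact ih (forest_stp act i hF)

lemma stp_subset_insert [DecidableEq ι] (edge : ι → Sym2 V) (act : ι → Prop) (F : Finset ι)
    (i : ι) : stp edge act F i ⊆ insert i F := by
  unfold stp
  split_ifs
  · intro x hx; simpa using hx
  · exact Finset.subset_insert _ _

/-- After an active edge has been processed, its end points are connected. -/
lemma reachable_stp {edge : ι → Sym2 V} (hinj : Function.Injective edge) {act : ι → Prop}
    {F : Finset ι} {i : ι} {a b : V} (hab : a ≠ b) (h : edge i = s(a, b))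
    (hF : Forest edge F) (ha : act i) : (graph edge (stp edge act F i)).Reachable a b := by
  classical
  unfold stp
  split_ifs with h1
  · exact reachable_congr (fun i => by simp only [Finset.mem_insert])
      (reachable_insert (F := F) hab h)
  · by_cases hi : i ∈ F
    · have : insert i F = F := Finset.insert_eq_of_mem hi
      have h2 := reachable_insert (F := F) hab h
      rwa [this] at h2
    · by_contra h2
      apply h1
      refine ⟨ha, ?_⟩
      exact forest_congr (fun i => by simp only [Finset.mem_insert])
        ((forest_insert hinj hab h hi hF).2 h2)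

end Pool.Agent.R566.Prophet
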