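import Pool.Agent.R566.Prophet.Bound

set_option autoImplicit false

open MeasureTheory
open scoped ENNReal BigOperators

namespace Pool.Agent.R566.Prophet

variable {P : Type} [Fintype P] [DecidableEq P] {ty : P → Fin 6}

/-- The order of arrival. -/
noncomputable def arrival (P : Type) [Fintype P] : List ((P × Fin 4) ⊕ Fin 3) :=
  (Finset.univ : Finset P).toList.flatMap blk ++ hubEdges

section algorithm

variable (ty) (ε C : ℝ) (T : (P × Fin 4) ⊕ Fin 3 → EReal)

open Classical in
/-- The private vertices at which the edges to both hubs can be active. -/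
noncomputable def JJ (h h' : Fin 4) : Finset P :=
  Finset.univ.filter fun i => T (Sum.inl (i, posAt (ty i) h)) ≤ (vp ε (posAt (ty i) h) : EReal) ∧
    T (Sum.inl (i, posAt (ty i) h')) ≤ (vp ε (posAt (ty i) h') : EReal)

/-- A pair of hubs that is usable at many private vertices. -/
def heavy (L : ℕ) (h h' : Fin 4) : Prop := h ≠ h' ∧ L ≤ (JJ ty ε T h h').card

/-- The equivalence relation generated by heavy pairs. -/
def QQ (L : ℕ) : Setoid (Fin 4) := Relation.EqvGen.setoid (heavy ty ε T L)

open Classical in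
/-- The heavy pairs. -/
noncomputable def heavyPairs (L : ℕ) : Finset (Fin 4 × Fin 4) :=
  Finset.univ.filter fun t => heavy ty ε T L t.1 t.2

end algorithm

/-- The pointwise bound. -/
lemma pointwise {ε C : ℝ} (h0 : 0 < ε) (h1 : ε ≤ 1 / 2) (hC : 0 ≤ C)
    (T : (P × Fin 4) ⊕ Fin 3 → EReal) (L : ℕ) (ω : (P × Fin 4) ⊕ Fin 3 → Bool) :
    val (outcome (vv P ε C) ω) (accepted (edg ty)
      (fun e => T e ≤ (outcome (vv P ε C) ω e : EReal)) (arrival P)) ≤
    (∑ i, fv ε (fun p => T (Sum.inl (i, p))) (fun p => ω (Sum.inl (i, p)))) + 2 / ε +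
      C * (kap (QQ ty ε T L) - 1) +
      3 * C * ∑ t ∈ heavyPairs ty ε T L, ∏ i ∈ JJ ty ε T t.1 t.2,
        nb (posAt (ty i) t.1) (posAt (ty i) t.2) (fun p => ω (Sum.inl (i, p))) := by
  classical
  set x := outcome (vv P ε C) ω with hx
  set act : (P × Fin 4) ⊕ Fin 3 → Prop := fun e => T e ≤ (x e : EReal) with hact
  have hv1 : (1 : ℝ) ≤ 1 / (2 * ε) := by
    rw [le_div_iff₀ (by linarith)]; linarith
  have hvp : ∀ p, vp ε p ≤ 1 / (2 * ε) := by
    intro p; unfold vp; split_ifs <;> linarith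
  have hvp0 : ∀ p, 0 ≤ vp ε p := by
    intro p; unfold vp; split_ifs <;> linarith
  have hxl : ∀ e, x (Sum.inl e) ≤ 1 / (2 * ε) := by
    intro e
    rw [hx]
    unfold outcome
    split_ifs
    · exact hvp _
    · linarith
  have hxr : ∀ j, x (Sum.inr j) ≤ C := by
    intro j
    rw [hx]
    unfold outcome
    split_ifs
    · exact le_refl _
    · exact hC
  have hpb := path_bound (ty := ty) (act := act) (x := x) (v := 1 / (2 * ε)) (C := C)
    (by linarith) hC hxl hxr (Finset.univ : Finset P).toList (Finset.nodup_toList _)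
    (fun i => by simp) (QQ ty ε T L)
  have hsum : ((Finset.univ : Finset P).toList.map fun i => firstVal act x i [0, 1, 2, 3]).sum =
      ∑ i, fv ε (fun p => T (Sum.inl (i, p))) (fun p => ω (Sum.inl (i, p))) := by
    rw [Finset.sum_map_toList]
    apply Finset.sum_congr rfl
    intro i _
    unfold fv
    simp only [firstVal, hact, hx, outcome, vv]
  rw [hsum] at hpb
  have h4 : 4 * (1 / (2 * ε)) = 2 / ε := by field_simp; norm_num
  rw [h4] at hpb
  have hsn : ∀ t ∈ heavyPairs ty ε T L, 0 ≤ ∏ i ∈ JJ ty ε T t.1 t.2,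
        nb (posAt (ty i) t.1) (posAt (ty i) t.2) (fun p => ω (Sum.inl (i, p))) :=
    fun t _ => Finset.prod_nonneg fun i _ => nb_nonneg _ _ _
  by_cases hbad : ∃ t ∈ heavyPairs ty ε T L, ∀ i ∈ JJ ty ε T t.1 t.2,
      ¬ (ω (Sum.inl (i, posAt (ty i) t.1)) = true ∧ ω (Sum.inl (i, posAt (ty i) t.2)) = true)
  · obtain ⟨t, ht, hall⟩ := hbad
    have h5 : (1 : ℝ) ≤ ∑ t ∈ heavyPairs ty ε T L, ∏ i ∈ JJ ty ε T t.1 t.2,
        nb (posAt (ty i) t.1) (posAt (ty i) t.2) (fun p => ω (Sum.inl (i, p))) := by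
      refine le_trans ?_ (Finset.single_le_sum hsn ht)
      rw [Finset.prod_eq_one]
      intro i hi
      unfold nb
      rw [if_neg (hall i hi)]
    have h6 := hpb.1
    have h7 : (1 : ℝ) ≤ kap (QQ ty ε T L) := by exact_mod_cast one_le_kap _
    have h8 : 0 ≤ C * ((kap (QQ ty ε T L) : ℝ) - 1) := mul_nonneg hC (by linarith)
    have h9 : 3 * C * 1 ≤ 3 * C * ∑ t ∈ heavyPairs ty ε T L, ∏ i ∈ JJ ty ε T t.1 t.2,
        nb (posAt (ty i) t.1) (posAt (ty i) t.2) (fun p => ω (Sum.inl (i, p))) :=
      mul_le_mul_of_nonneg_left h5 (by linarith)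
    have h10 : arrival P = (Finset.univ : Finset P).toList.flatMap blk ++ hubEdges := rfl
    rw [h10]
    linarith
  · push Not at hbad
    have h6 := hpb.2 (by
      intro Q' hQ'
      unfold QQ
      apply Setoid.eqvGen_le
      intro h h' hh
      obtain ⟨i, hi, hi1, hi2⟩ := hbad (h, h') (by
        unfold heavyPairs
        rw [Finset.mem_filter]
        exact ⟨Finset.mem_univ _, hh⟩)
      simp only at hi hi1 hi2
      unfold JJ at hi
      rw [Finset.mem_filter] at hi
      have h7 := hQ' i (posAt (ty i) h) (posAt (ty i) h') (by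
        simp only [hact, hx, outcome, hi1, if_true]
        exact hi.2.1) (by
        simp only [hact, hx, outcome, hi2, if_true]
        exact hi.2.2)
      rwa [hubAt_posAt, hubAt_posAt] at h7)
    have h9 : 0 ≤ 3 * C * ∑ t ∈ heavyPairs ty ε T L, ∏ i ∈ JJ ty ε T t.1 t.2,
        nb (posAt (ty i) t.1) (posAt (ty i) t.2) (fun p => ω (Sum.inl (i, p))) :=
      mul_nonneg (by linarith) (Finset.sum_nonneg hsn)
    have h10 : arrival P = (Finset.univ : Finset P).toList.flatMap blk ++ hubEdges := rfl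
    rw [h10]
    linarith

/-- The expectation of the pointwise bound. -/
lemma expectation_bound {ε C : ℝ} (h0 : 0 < ε) (h1 : ε ≤ 1 / 2) (hC : 0 ≤ C)
    (T : (P × Fin 4) ⊕ Fin 3 → EReal) (L : ℕ) :
    ∑ ω, wgt (qq P ε) ω * val (outcome (vv P ε C) ω) (accepted (edg ty)
      (fun e => T e ≤ (outcome (vv P ε C) ω e : EReal)) (arrival P)) ≤
    (∑ i, phi (sI ε (fun p => T (Sum.inl (i, p))))) + 2 / ε +
      C * (kap (QQ ty ε T L) - 1) + 3 * C * (16 * (1 - ε ^ 2) ^ L) := by
  classical
  have hq0 : ∀ e, 0 ≤ qq P ε e := by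
    rintro (⟨i, p⟩ | j)
    · show 0 ≤ qp ε p
      unfold qp; split_ifs <;> linarith
    · exact zero_le_one
  have hq1 : ∀ e, qq P ε e ≤ 1 := by
    rintro (⟨i, p⟩ | j)
    · show qp ε p ≤ 1
      unfold qp; split_ifs <;> linarith
    · exact le_refl _
  set G : (P → Fin 4 → Bool) → ℝ := fun β =>
    (∑ i, fv ε (fun p => T (Sum.inl (i, p))) (β i)) + 2 / ε +
      C * (kap (QQ ty ε T L) - 1) +
      3 * C * ∑ t ∈ heavyPairs ty ε T L, ∏ i ∈ JJ ty ε T t.1 t.2,
        nb (posAt (ty i) t.1) (posAt (ty i) t.2) (β i) with hG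
  have s1 : ∑ ω, wgt (qq P ε) ω * val (outcome (vv P ε C) ω) (accepted (edg ty)
      (fun e => T e ≤ (outcome (vv P ε C) ω e : EReal)) (arrival P)) ≤
      ∑ ω, wgt (qq P ε) ω * G (fun i p => ω (Sum.inl (i, p))) := by
    apply Finset.sum_le_sum
    intro ω _
    exact mul_le_mul_of_nonneg_left (pointwise h0 h1 hC T L ω) (wgt_nonneg hq0 hq1 ω)
  refine s1.trans ?_
  rw [sum_eq_Ex]
  have s2 : Ex ε G = (∑ i, ∑ b, wb ε b * fv ε (fun p => T (Sum.inl (i, p))) b) + 2 / ε +
      C * (kap (QQ ty ε T L) - 1) +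
      3 * C * ∑ t ∈ heavyPairs ty ε T L, ∏ i ∈ JJ ty ε T t.1 t.2,
        ∑ b, wb ε b * nb (posAt (ty i) t.1) (posAt (ty i) t.2) b := by
    rw [hG, Ex_add, Ex_add, Ex_add, Ex_const, Ex_const, Ex_const_mul, Ex_sum, Ex_sum]
    congr 1
    · congr 2
      apply Finset.sum_congr rfl
      intro i _
      exact Ex_single ε i _
    · congr 1
      apply Finset.sum_congr rfl
      intro t _
      exact Ex_prod_subset ε _ (fun i b => nb (posAt (ty i) t.1) (posAt (ty i) t.2) b)
  rw [s2]
  have s3 : (∑ i : P, ∑ b, wb ε b * fv ε (fun p => T (Sum.inl (i, p))) b) ≤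
      ∑ i : P, phi (sI ε (fun p => T (Sum.inl (i, p)))) :=
    Finset.sum_le_sum fun i _ => fv_bound h0 (by linarith) _
  have e1 : (0 : ℝ) ≤ 1 - ε ^ 2 := by nlinarith
  have e2 : 1 - ε ^ 2 ≤ (1 : ℝ) := by nlinarith
  have s4 : ∑ t ∈ heavyPairs ty ε T L, ∏ i ∈ JJ ty ε T t.1 t.2,
        ∑ b, wb ε b * nb (posAt (ty i) t.1) (posAt (ty i) t.2) b ≤ 16 * (1 - ε ^ 2) ^ L := by
    have s5 : ∀ t ∈ heavyPairs ty ε T L, ∏ i ∈ JJ ty ε T t.1 t.2,
        ∑ b, wb ε b * nb (posAt (ty i) t.1) (posAt (ty i) t.2) b ≤ (1 - ε ^ 2) ^ L := by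
      intro t ht
      unfold heavyPairs at ht
      rw [Finset.mem_filter] at ht
      obtain ⟨-, ht1, ht2⟩ := ht
      calc ∏ i ∈ JJ ty ε T t.1 t.2, ∑ b, wb ε b * nb (posAt (ty i) t.1) (posAt (ty i) t.2) b
          ≤ ∏ i ∈ JJ ty ε T t.1 t.2, (1 - ε ^ 2) := by
            apply Finset.prod_le_prod
            · intro i _
              exact Finset.sum_nonneg fun b _ => mul_nonneg (wb_nonneg h0.le (by linarith) b)
                (nb_nonneg _ _ _)
            · intro i _
              apply nb_sum h0 h1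
              intro h
              apply ht1
              have := congrArg (hubAt (ty i)) h
              rwa [hubAt_posAt, hubAt_posAt] at this
        _ = (1 - ε ^ 2) ^ (JJ ty ε T t.1 t.2).card := by rw [Finset.prod_const]
        _ ≤ (1 - ε ^ 2) ^ L := pow_le_pow_of_le_one e1 e2 ht2
    calc ∑ t ∈ heavyPairs ty ε T L, ∏ i ∈ JJ ty ε T t.1 t.2,
        ∑ b, wb ε b * nb (posAt (ty i) t.1) (posAt (ty i) t.2) b
        ≤ ∑ t ∈ heavyPairs ty ε T L, (1 - ε ^ 2) ^ L := Finset.sum_le_sum s5
      _ = ((heavyPairs ty ε T L).card : ℝ) * (1 - ε ^ 2) ^ L := by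
          rw [Finset.sum_const, nsmul_eq_mul]
      _ ≤ 16 * (1 - ε ^ 2) ^ L := by
          apply mul_le_mul_of_nonneg_right _ (pow_nonneg e1 L)
          have h16 : (heavyPairs ty ε T L).card ≤ 16 := by
            refine (Finset.card_le_univ _).trans ?_
            simp
          exact_mod_cast h16
  have s6 : 3 * C * ∑ t ∈ heavyPairs ty ε T L, ∏ i ∈ JJ ty ε T t.1 t.2,
        ∑ b, wb ε b * nb (posAt (ty i) t.1) (posAt (ty i) t.2) b ≤
      3 * C * (16 * (1 - ε ^ 2) ^ L) := mul_le_mul_of_nonneg_left s4 (by linarith)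
  linarith

/-- The labels of the classes of hubs. -/
noncomputable def lab (Q : Setoid (Fin 4)) (h : Fin 4) : Fin 4 := (Quotient.mk Q h).out

lemma card_lab (Q : Setoid (Fin 4)) : (Finset.univ.image (lab Q)).card = kap Q := by
  classical
  unfold kap
  rw [Nat.card_eq_fintype_card, ← Finset.card_univ,
    ← Finset.card_image_of_injective (f := fun c : Quotient Q => c.out) Finset.univ
      (fun a b h => by
        have := congrArg (Quotient.mk Q) h
        simpa using this)]
  congr 1
  ext h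
  simp only [Finset.mem_image, Finset.mem_univ, true_and]
  constructor
  · rintro ⟨a, rfl⟩
    exact ⟨⟦a⟧, rfl⟩
  · rintro ⟨c, rfl⟩
    exact ⟨c.out, by unfold lab; rw [Quotient.out_eq]⟩

lemma lab_eq {Q : Setoid (Fin 4)} {a b : Fin 4} (h : Q a b) : lab Q a = lab Q b := by
  unfold lab
  rw [Quotient.sound h]

/-- The bound for the private part. -/
lemma private_bound {ε : ℝ} (T : (P × Fin 4) ⊕ Fin 3 → EReal) (L : ℕ) :
    ∑ i, phi (sI ε (fun p => T (Sum.inl (i, p)))) ≤
      (∑ i, (Phi (ty i) (lab (QQ ty ε T L)) : ℝ) / 8) + 16 * L := by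
  classical
  set B : Finset P := (Finset.univ.filter fun t : Fin 4 × Fin 4 =>
    (JJ ty ε T t.1 t.2).card < L).biUnion fun t => JJ ty ε T t.1 t.2 with hB
  have hBc : (B.card : ℝ) ≤ 16 * L := by
    have h1 : B.card ≤ 16 * L := by
      refine Finset.card_biUnion_le.trans ?_
      calc ∑ t ∈ Finset.univ.filter (fun t : Fin 4 × Fin 4 => (JJ ty ε T t.1 t.2).card < L),
            (JJ ty ε T t.1 t.2).card
          ≤ ∑ t ∈ Finset.univ.filter (fun t : Fin 4 × Fin 4 => (JJ ty ε T t.1 t.2).card < L), L := by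
            apply Finset.sum_le_sum
            intro t ht
            rw [Finset.mem_filter] at ht
            exact ht.2.le
        _ ≤ 16 * L := by
            rw [Finset.sum_const, smul_eq_mul]
            apply Nat.mul_le_mul_right
            refine (Finset.card_le_univ _).trans ?_
            simp
    exact_mod_cast h1
  have key : ∀ i, phi (sI ε (fun p => T (Sum.inl (i, p)))) ≤
      (Phi (ty i) (lab (QQ ty ε T L)) : ℝ) / 8 + (if i ∈ B then 1 else 0) := by
    intro i
    have hPhi : (0 : ℝ) ≤ (Phi (ty i) (lab (QQ ty ε T L)) : ℝ) / 8 := by positivity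
    by_cases hi : i ∈ B
    · rw [if_pos hi]
      have := phi_le_one (s := sI ε (fun p => T (Sum.inl (i, p)))) (fun p => sI_le_one _ _ _)
      linarith
    · rw [if_neg hi, add_zero]
      by_cases hex : ∃ p0, T (Sum.inl (i, p0)) ≤ (vp ε p0 : EReal)
      · obtain ⟨p0, hp0⟩ := hex
        apply phi_le (fun p => sI_nonneg _ _ _) (ty i) _ (lab (QQ ty ε T L) (hubAt (ty i) p0))
        intro p
        unfold sI
        by_cases hp : T (Sum.inl (i, p)) ≤ (vp ε p : EReal)
        · rw [if_pos hp]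
          have h2 : lab (QQ ty ε T L) (hubAt (ty i) p) = lab (QQ ty ε T L) (hubAt (ty i) p0) := by
            by_cases hpp : p = p0
            · rw [hpp]
            · apply lab_eq
              apply Relation.EqvGen.rel
              refine ⟨fun h => hpp (hubAt_injective _ h), ?_⟩
              by_contra hlt
              push Not at hlt
              apply hi
              rw [hB, Finset.mem_biUnion]
              refine ⟨(hubAt (ty i) p, hubAt (ty i) p0), ?_, ?_⟩
              · rw [Finset.mem_filter]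
                exact ⟨Finset.mem_univ _, hlt⟩
              · unfold JJ
                rw [Finset.mem_filter]
                simp only [posAt_hubAt]
                exact ⟨Finset.mem_univ _, hp, hp0⟩
          have h3 : tI (ty i) (lab (QQ ty ε T L)) (lab (QQ ty ε T L) (hubAt (ty i) p0)) p = 1 := by
            unfold tI
            rw [if_pos h2]
          rw [h3]
          simp
        · rw [if_neg hp]
          exact Nat.cast_nonneg _
      · push Not at hex
        have h2 : ∀ p, sI ε (fun p => T (Sum.inl (i, p))) p = 0 := by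
          intro p
          unfold sI
          rw [if_neg (not_le.2 (hex p))]
        have h3 : phi (sI ε (fun p => T (Sum.inl (i, p)))) = 0 := by
          unfold phi
          rw [h2, h2, h2, h2]
          norm_num
        rw [h3]
        exact hPhi
  calc ∑ i, phi (sI ε (fun p => T (Sum.inl (i, p))))
      ≤ ∑ i, ((Phi (ty i) (lab (QQ ty ε T L)) : ℝ) / 8 + (if i ∈ B then 1 else 0)) :=
        Finset.sum_le_sum fun i _ => key i
    _ = (∑ i, (Phi (ty i) (lab (QQ ty ε T L)) : ℝ) / 8) + B.card := by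
        rw [Finset.sum_add_distrib]
        congr 1
        rw [Finset.sum_ite_mem, Finset.univ_inter, Finset.sum_const, nsmul_eq_mul, mul_one]
    _ ≤ _ := by linarith

end Pool.Agent.R566.Prophet
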