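import Mathlib

/-!
# Non-adaptive prophet inequalities on simple graphic matroids: the model
-/

set_option autoImplicit false

open MeasureTheory
open scoped ENNReal

namespace Pool.Agent.R566.Prophet

/-- An instance: a finite simple graph, given by its set `V` of vertices and its edges
`edge i`, `i ∈ ι` (pairwise different, no loops), an order in which the edges arrive, and the
distributions of the independent nonnegative random variables `X i` (with finite expectation). -/
structure Instance where
  /-- the vertices -/
  V : Type
  /-- the index set of the edges -/
  ι : Type
  [finV : Fintype V]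
  [finι : Fintype ι]
  /-- the edges -/
  edge : ι → Sym2 V
  edge_injective : Function.Injective edge
  not_loop : ∀ i, ¬ (edge i).IsDiag
  /-- the order of arrival -/
  order : List ι
  order_nodup : order.Nodup
  mem_order : ∀ i, i ∈ order
  /-- the distribution of the value of an edge -/
  law : ι → Measure ℝ
  law_prob : ∀ i, IsProbabilityMeasure (law i)
  law_nonneg : ∀ i, law i (Set.Iio 0) = 0
  law_mean : ∀ i, ∫⁻ x, ENNReal.ofReal x ∂(law i) ≠ ∞

attribute [instance] Instance.finV Instance.finι Instance.law_prob

variable {V ι : Type}

/-- The graph whose edges are those with index in `F`. -/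
def graph (edge : ι → Sym2 V) (F : Finset ι) : SimpleGraph V :=
  SimpleGraph.fromEdgeSet (edge '' (F : Set ι))

/-- The set `F` of edges is a forest. -/
def Forest (edge : ι → Sym2 V) (F : Finset ι) : Prop := (graph edge F).IsAcyclic

open Classical in
/-- The set of accepted edges when the edges of the list `L` arrive in this order and the edges
`i` with `act i` have reached their threshold: such an edge is accepted exactly when it forms a
forest with the edges accepted before. -/
noncomputable def accepted (edge : ι → Sym2 V) (act : ι → Prop) (L : List ι) : Finset ι :=
  L.foldl (fun F i => if act i ∧ Forest edge (insert i F) then insert i F else F) ∅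

/-- The value of the non-adaptive algorithm with thresholds `T` for the values `x`. -/
noncomputable def algValue (I : Instance) (T : I.ι → EReal) (x : I.ι → ℝ) : ℝ≥0∞ :=
  ∑ i ∈ accepted I.edge (fun i => T i ≤ (x i : EReal)) I.order, ENNReal.ofReal (x i)

/-- The value of the prophet for the values `x`: the maximum over all forests. -/
noncomputable def optValue (I : Instance) (x : I.ι → ℝ) : ℝ≥0∞ :=
  ⨆ F : Finset I.ι, ⨆ _ : Forest I.edge F, ∑ i ∈ F, ENNReal.ofReal (x i)

/-- `𝔼[OPT]`; the values of the edges are independent with the given distributions. -/
noncomputable def expOpt (I : Instance) : ℝ≥0∞ := ∫⁻ x, optValue I x ∂(Measure.pi I.law)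

/-- `𝔼[ALG]` for a (possibly randomised) non-adaptive algorithm that draws its vector of thresholds
from the distribution `ν` before any value is revealed. -/
noncomputable def expAlg (I : Instance) (ν : Measure (I.ι → EReal)) : ℝ≥0∞ :=
  ∫⁻ T, (∫⁻ x, algValue I T x ∂(Measure.pi I.law)) ∂ν

/-- A non-adaptive algorithm: for every instance a probability distribution over vectors of
thresholds. -/
structure NonAdaptive where
  /-- the distribution of the thresholds -/
  thresholds : (I : Instance) → Measure (I.ι → EReal)
  prob : ∀ I, IsProbabilityMeasure (thresholds I)

/-- The optimal worst-case ratio of non-adaptive algorithms on simple graphs. -/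
noncomputable def rhoSimple : ℝ≥0∞ :=
  ⨅ A : NonAdaptive, ⨆ I : Instance, expOpt I / expAlg I (A.thresholds I)

end Pool.Agent.R566.Prophet
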