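import Pool.Agent.R566.Prophet.Graph

set_option autoImplicit false

open MeasureTheory
open scoped ENNReal

namespace Pool.Agent.R566.Prophet

/-- The hubs of the four edges at a private vertex of a given type, in their order of arrival. -/
def hubAt : Fin 6 → Fin 4 → Fin 4 :=
  ![![0, 1, 2, 3], ![0, 2, 1, 3], ![0, 3, 1, 2], ![1, 2, 0, 3], ![1, 3, 0, 2], ![2, 3, 0, 1]]

lemma hubAt_injective : ∀ τ, Function.Injective (hubAt τ) := by decide

variable {P : Type} (ty : P → Fin 6)

/-- The edges: `inl (i, p)` joins the private vertex `i` to its `p`-th hub, the edges `inr j` form a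
path through the four hubs. -/
def edg : (P × Fin 4) ⊕ Fin 3 → Sym2 (Fin 4 ⊕ P)
  | Sum.inl (i, p) => s(Sum.inr i, Sum.inl (hubAt (ty i) p))
  | Sum.inr j => s(Sum.inl j.castSucc, Sum.inl j.succ)

lemma edg_injective : Function.Injective (edg ty) := by
  rintro (⟨i, p⟩ | j) (⟨i', p'⟩ | j') h
  · simp only [edg, Sym2.eq_iff, Sum.inr.injEq, Sum.inl.injEq, reduceCtorEq, false_and,
      or_false] at h
    obtain ⟨rfl, h⟩ := h
    rw [hubAt_injective _ h]
  · simp [edg] at h
  · simp [edg] at h
  · simp only [edg, Sym2.eq_iff, Sum.inl.injEq] at h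
    rcases h with ⟨h1, -⟩ | ⟨h1, h2⟩
    · rw [Fin.castSucc_injective _ h1]
    · exfalso
      have e1 := congrArg Fin.val h1
      have e2 := congrArg Fin.val h2
      simp at e1 e2
      omega

lemma edg_not_loop (i : (P × Fin 4) ⊕ Fin 3) : ¬ (edg ty i).IsDiag := by
  rcases i with ⟨i, p⟩ | j
  · simp [edg]
  · simp only [edg, Sym2.mk_isDiag_iff, Sum.inl.injEq]
    intro h
    have := congrArg Fin.val h
    simp at this

/-- Connectedness of hubs. -/
def hubRel (F : Finset ((P × Fin 4) ⊕ Fin 3)) : Setoid (Fin 4) where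
  r h h' := (graph (edg ty) F).Reachable (Sum.inl h) (Sum.inl h')
  iseqv := ⟨fun _ => SimpleGraph.Reachable.refl _, fun h => h.symm, fun h h' => h.trans h'⟩

/-- The number of classes of hubs. -/
noncomputable def kap (Q : Setoid (Fin 4)) : ℕ := Nat.card (Quotient Q)

lemma kap_mono {Q R : Setoid (Fin 4)} (h : Q ≤ R) : kap R ≤ kap Q := by
  unfold kap
  exact Nat.card_le_card_of_surjective (Quotient.map id (fun a b hab => h hab))
    (fun x => by
      induction x using Quotient.inductionOn with
      | h a => exact ⟨⟦a⟧, rfl⟩)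

lemma kap_lt {Q R : Setoid (Fin 4)} (h : Q ≤ R) {a b : Fin 4} (h1 : ¬ Q a b) (h2 : R a b) :
    kap R + 1 ≤ kap Q := by
  classical
  unfold kap
  rw [Nat.card_eq_fintype_card, Nat.card_eq_fintype_card]
  apply Fintype.card_lt_of_surjective_not_injective (Quotient.map id (fun a b hab => h hab))
  · intro x
    induction x using Quotient.inductionOn with
    | h a => exact ⟨⟦a⟧, rfl⟩
  · intro hinj
    apply h1
    have : (⟦a⟧ : Quotient Q) = ⟦b⟧ := by
      apply hinj
      exact Quotient.sound h2
    exact Quotient.exact this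

lemma one_le_kap (Q : Setoid (Fin 4)) : 1 ≤ kap Q := by
  unfold kap
  have : Nonempty (Quotient Q) := ⟨⟦0⟧⟩
  exact Nat.one_le_iff_ne_zero.2 (Nat.card_pos.ne')

lemma kap_le_four (Q : Setoid (Fin 4)) : kap Q ≤ 4 := by
  unfold kap
  have := Nat.card_le_card_of_surjective (Quotient.mk Q) Quotient.mk_surjective
  simpa using this

variable {ty}

lemma hubRel_mono {F F' : Finset ((P × Fin 4) ⊕ Fin 3)} (h : F ⊆ F') :
    hubRel ty F ≤ hubRel ty F' := fun _ _ hab => reachable_mono h hab

/-- The value of a set of edges. -/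
noncomputable def val (x : (P × Fin 4) ⊕ Fin 3 → ℝ) (F : Finset ((P × Fin 4) ⊕ Fin 3)) : ℝ :=
  ∑ e ∈ F, x e

variable {act : (P × Fin 4) ⊕ Fin 3 → Prop} {x : (P × Fin 4) ⊕ Fin 3 → ℝ} {v C : ℝ}

/-- Generic step: if the accepted edge merges two classes of hubs, `val + c * kap` does not
increase, where `c` is an upper bound for the value. -/
lemma step_merge (F : Finset ((P × Fin 4) ⊕ Fin 3)) (e : (P × Fin 4) ⊕ Fin 3) (c : ℝ)
    (hc : 0 ≤ c) (hx : x e ≤ c)
    (hm : e ∉ F → Forest (edg ty) (stp (edg ty) act F e) → e ∈ stp (edg ty) act F e →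
      ∃ a b, ¬ hubRel ty F a b ∧ hubRel ty (stp (edg ty) act F e) a b)
    (hF : Forest (edg ty) F) :
    val x (stp (edg ty) act F e) + c * kap (hubRel ty (stp (edg ty) act F e))
      ≤ val x F + c * kap (hubRel ty F) := by
  classical
  by_cases he : e ∈ F
  · have h1 : stp (edg ty) act F e = F := by
      unfold stp
      split_ifs with h
      · simpa using he
      · rfl
    rw [h1]
  · by_cases h : e ∈ stp (edg ty) act F e
    · obtain ⟨a, b, h1, h2⟩ := hm he (forest_stp act e hF) h
      have h3 := kap_lt (hubRel_mono (subset_stp (edg ty) act F e)) h1 h2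
      have h4 : stp (edg ty) act F e = insert e F := by
        unfold stp at h ⊢
        split_ifs at h ⊢ with h5
        · ext y; simp
        · exact absurd h he
      have h5 : val x (stp (edg ty) act F e) = val x F + x e := by
        rw [h4]
        unfold val
        rw [Finset.sum_insert he, add_comm]
      rw [h5]
      have h6 : ((kap (hubRel ty (stp (edg ty) act F e)) : ℝ)) + 1 ≤ kap (hubRel ty F) := by
        exact_mod_cast h3
      nlinarith
    · have h1 : stp (edg ty) act F e = F := by
        unfold stp at h ⊢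
        split_ifs at h ⊢ with h5
        · exact absurd (by simp) h
        · rfl
      rw [h1]

/-- Edges at a private vertex that is already connected to a hub. -/
lemma connected_steps (i : P) (hv : 0 ≤ v) (hx : ∀ p, x (Sum.inl (i, p)) ≤ v) (l : List (Fin 4)) :
    ∀ (F : Finset ((P × Fin 4) ⊕ Fin 3)), Forest (edg ty) F →
      (∃ h, (graph (edg ty) F).Reachable (Sum.inr i) (Sum.inl h)) →
      val x ((l.map fun p => (Sum.inl (i, p) : (P × Fin 4) ⊕ Fin 3)).foldl (stp (edg ty) act) F)
        + v * kap (hubRel ty ((l.map fun p => (Sum.inl (i, p) : (P × Fin 4) ⊕ Fin 3)).foldl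
          (stp (edg ty) act) F)) ≤ val x F + v * kap (hubRel ty F) := by
  induction l with
  | nil => intro F _ _; exact le_refl _
  | cons p l ih =>
    intro F hF hr
    rw [List.map_cons, List.foldl_cons]
    have hF1 := forest_stp (edge := edg ty) act (Sum.inl (i, p)) hF
    obtain ⟨h0, hr0⟩ := hr
    have h1 := ih (stp (edg ty) act F (Sum.inl (i, p))) hF1
      ⟨h0, reachable_mono (subset_stp _ _ _ _) hr0⟩
    refine h1.trans ?_
    refine step_merge F (Sum.inl (i, p)) v hv (hx p) ?_ hF
    intro he hf hmem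
    refine ⟨h0, hubAt (ty i) p, ?_, ?_⟩
    · intro hab
      have hab' : (graph (edg ty) F).Reachable (Sum.inl h0) (Sum.inl (hubAt (ty i) p)) := hab
      have h2 : (graph (edg ty) F).Reachable (Sum.inr i) (Sum.inl (hubAt (ty i) p)) :=
        hr0.trans hab'
      unfold stp at hmem
      split_ifs at hmem with h3
      · exact (forest_insert (edg_injective ty) (by simp) rfl he hF).1 h3.2 h2
      · exact he hmem
    · have h3 : act (Sum.inl (i, p)) := by
        unfold stp at hmem
        split_ifs at hmem with h3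
        · exact h3.1
        · exact absurd hmem he
      have h4 := reachable_stp (edg_injective ty) (F := F) (i := Sum.inl (i, p))
        (a := Sum.inr i) (b := Sum.inl (hubAt (ty i) p)) (by simp) rfl hF h3
      exact (reachable_mono (subset_stp _ _ _ _) hr0).symm.trans h4

open Classical in
/-- The value of the first active edge among those in the positions of a list. -/
noncomputable def firstVal (act : (P × Fin 4) ⊕ Fin 3 → Prop) (x : (P × Fin 4) ⊕ Fin 3 → ℝ)
    (i : P) : List (Fin 4) → ℝ
  | [] => 0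
  | p :: l => if act (Sum.inl (i, p)) then x (Sum.inl (i, p)) else firstVal act x i l

/-- Edges at a private vertex which is still isolated. -/
lemma isolated_steps (i : P) (hv : 0 ≤ v) (hx : ∀ p, x (Sum.inl (i, p)) ≤ v) (l : List (Fin 4)) :
    ∀ (F : Finset ((P × Fin 4) ⊕ Fin 3)), Forest (edg ty) F →
      (∀ e ∈ F, Sum.inr i ∉ edg ty e) →
      val x ((l.map fun p => (Sum.inl (i, p) : (P × Fin 4) ⊕ Fin 3)).foldl (stp (edg ty) act) F)
        + v * kap (hubRel ty ((l.map fun p => (Sum.inl (i, p) : (P × Fin 4) ⊕ Fin 3)).foldl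
          (stp (edg ty) act) F)) ≤ val x F + v * kap (hubRel ty F) + firstVal act x i l := by
  classical
  induction l with
  | nil => intro F _ _; simp [firstVal]
  | cons p l ih =>
    intro F hF hiso
    rw [List.map_cons, List.foldl_cons]
    by_cases ha : act (Sum.inl (i, p))
    · have he : (Sum.inl (i, p) : (P × Fin 4) ⊕ Fin 3) ∉ F := by
        intro he
        exact hiso _ he (by simp [edg])
      have hfor : Forest (edg ty) (insert (Sum.inl (i, p)) F) := by
        have := forest_insert_of_isolated (edg_injective ty) (F := F) (i := Sum.inl (i, p))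
          (a := Sum.inr i) (b := Sum.inl (hubAt (ty i) p)) (by simp) rfl he hF hiso
        exact forest_congr (fun i => by simp only [Finset.mem_insert]) this
      have h1 : stp (edg ty) act F (Sum.inl (i, p)) = insert (Sum.inl (i, p)) F := by
        unfold stp
        rw [if_pos ⟨ha, forest_congr (fun i => by simp only [Finset.mem_insert]) hfor⟩]
        ext y; simp
      have h2 : (graph (edg ty) (insert (Sum.inl (i, p)) F)).Reachable (Sum.inr i)
          (Sum.inl (hubAt (ty i) p)) := reachable_insert (by simp) rfl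
      rw [h1]
      refine (connected_steps i hv hx l _ hfor ⟨_, h2⟩).trans ?_
      have h3 : val x (insert (Sum.inl (i, p)) F) = val x F + x (Sum.inl (i, p)) := by
        unfold val
        rw [Finset.sum_insert he, add_comm]
      have h4 : (kap (hubRel ty (insert (Sum.inl (i, p)) F)) : ℝ) ≤ kap (hubRel ty F) := by
        exact_mod_cast kap_mono (hubRel_mono (Finset.subset_insert _ _))
      rw [h3]
      unfold firstVal
      rw [if_pos ha]
      nlinarith
    · have h1 : stp (edg ty) act F (Sum.inl (i, p)) = F := by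
        unfold stp
        rw [if_neg]
        intro h; exact ha h.1
      rw [h1]
      unfold firstVal
      rw [if_neg ha]
      exact ih F hF hiso

/-- The edges at a private vertex, in their order of arrival. -/
def blk (i : P) : List ((P × Fin 4) ⊕ Fin 3) :=
  ([0, 1, 2, 3] : List (Fin 4)).map fun p => Sum.inl (i, p)

lemma mem_foldl_stp (L : List ((P × Fin 4) ⊕ Fin 3)) :
    ∀ (F : Finset ((P × Fin 4) ⊕ Fin 3)) (e : (P × Fin 4) ⊕ Fin 3),
      e ∈ L.foldl (stp (edg ty) act) F → e ∈ F ∨ e ∈ L := by
  classical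
  induction L with
  | nil => intro F e he; exact Or.inl he
  | cons a L ih =>
    intro F e he
    rcases ih _ e he with h | h
    · have := stp_subset_insert (edg ty) act F a h
      rw [Finset.mem_insert] at this
      rcases this with h2 | h2
      · right; simp [h2]
      · left; exact h2
    · right; simp [h]

/-- The phase of the edges at private vertices. -/
lemma private_phase (hv : 0 ≤ v) (hx : ∀ e, x (Sum.inl e) ≤ v) (Ls : List P) (hnd : Ls.Nodup) :
    ∀ (F : Finset ((P × Fin 4) ⊕ Fin 3)), Forest (edg ty) F →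
      (∀ i ∈ Ls, ∀ e ∈ F, Sum.inr i ∉ edg ty e) →
      val x ((Ls.flatMap blk).foldl (stp (edg ty) act) F)
        + v * kap (hubRel ty ((Ls.flatMap blk).foldl (stp (edg ty) act) F))
        ≤ val x F + v * kap (hubRel ty F) + (Ls.map fun i => firstVal act x i [0, 1, 2, 3]).sum := by
  induction Ls with
  | nil => intro F _ _; simp
  | cons i Ls ih =>
    intro F hF hiso
    rw [List.flatMap_cons, List.foldl_append, List.map_cons, List.sum_cons]
    have hnd' := List.nodup_cons.1 hnd
    have h1 := isolated_steps (ty := ty) (act := act) (x := x) i hv (fun p => hx (i, p))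
      [0, 1, 2, 3] F hF (hiso i (by simp))
    have h2 := ih hnd'.2 ((blk i).foldl (stp (edg ty) act) F) (forest_foldl act _ hF) (by
      intro j hj e he
      rcases mem_foldl_stp _ _ _ he with h | h
      · exact hiso j (by simp [hj]) e h
      · unfold blk at h
        rw [List.mem_map] at h
        obtain ⟨p, -, rfl⟩ := h
        simp only [edg, Sym2.mem_iff, Sum.inr.injEq, reduceCtorEq, or_false]
        rintro rfl
        exact hnd'.1 hj)
    refine h2.trans ?_
    have h3 : (blk i : List ((P × Fin 4) ⊕ Fin 3)) =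
      ([0, 1, 2, 3] : List (Fin 4)).map fun p => Sum.inl (i, p) := rfl
    rw [h3]
    linarith

/-- The edges between hubs. -/
def hubEdges : List ((P × Fin 4) ⊕ Fin 3) := ([0, 1, 2] : List (Fin 3)).map Sum.inr

lemma hub_phase (hC : 0 ≤ C) (hx : ∀ j, x (Sum.inr j) ≤ C) (l : List (Fin 3)) :
    ∀ (F : Finset ((P × Fin 4) ⊕ Fin 3)), Forest (edg ty) F →
      val x ((l.map (Sum.inr : Fin 3 → (P × Fin 4) ⊕ Fin 3)).foldl (stp (edg ty) act) F)
        + C * kap (hubRel ty ((l.map (Sum.inr : Fin 3 → (P × Fin 4) ⊕ Fin 3)).foldl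
          (stp (edg ty) act) F)) ≤ val x F + C * kap (hubRel ty F) := by
  induction l with
  | nil => intro F _; exact le_refl _
  | cons j l ih =>
    intro F hF
    rw [List.map_cons, List.foldl_cons]
    refine (ih _ (forest_stp act _ hF)).trans ?_
    refine step_merge F (Sum.inr j) C hC (hx j) ?_ hF
    intro he hf hmem
    have hne : (Sum.inl j.castSucc : Fin 4 ⊕ P) ≠ Sum.inl j.succ := by
      intro h
      have := congrArg Fin.val (Sum.inl_injective h)
      simp at this
    unfold stp at hmem
    split_ifs at hmem with h3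
    · refine ⟨j.castSucc, j.succ, ?_, ?_⟩
      · exact (forest_insert (edg_injective ty) hne rfl he hF).1 h3.2
      · exact reachable_stp (edg_injective ty) hne rfl hF h3.1
    · exact absurd hmem he

lemma reachable_of_mem (L : List ((P × Fin 4) ⊕ Fin 3)) (F : Finset ((P × Fin 4) ⊕ Fin 3))
    (hF : Forest (edg ty) F) (e : (P × Fin 4) ⊕ Fin 3) (he : e ∈ L) (ha : act e)
    {a b : Fin 4 ⊕ P} (hab : a ≠ b) (h : edg ty e = s(a, b)) :
    (graph (edg ty) (L.foldl (stp (edg ty) act) F)).Reachable a b := by
  obtain ⟨L1, L2, rfl⟩ := List.append_of_mem he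
  rw [List.foldl_append, List.foldl_cons]
  exact reachable_mono (subset_foldl _ _ _ _)
    (reachable_stp (edg_injective ty) hab h (forest_foldl act L1 hF) ha)

/-- The pathwise bound for the value of the accepted set. -/
theorem path_bound [Fintype P] (hv : 0 ≤ v) (hC : 0 ≤ C) (hx : ∀ e, x (Sum.inl e) ≤ v)
    (hx' : ∀ j, x (Sum.inr j) ≤ C) (Ls : List P) (hnd : Ls.Nodup) (hall : ∀ i, i ∈ Ls)
    (Q : Setoid (Fin 4)) :
    val x (accepted (edg ty) act (Ls.flatMap blk ++ hubEdges)) ≤
      (Ls.map fun i => firstVal act x i [0, 1, 2, 3]).sum + 4 * v + C * (4 - 1) ∧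
    ((∀ Q' : Setoid (Fin 4), (∀ i p p', act (Sum.inl (i, p)) → act (Sum.inl (i, p')) →
        Q' (hubAt (ty i) p) (hubAt (ty i) p')) → Q ≤ Q') →
      val x (accepted (edg ty) act (Ls.flatMap blk ++ hubEdges)) ≤
        (Ls.map fun i => firstVal act x i [0, 1, 2, 3]).sum + 4 * v + C * (kap Q - 1)) := by
  have hF0 : Forest (edg ty) (∅ : Finset ((P × Fin 4) ⊕ Fin 3)) := forest_empty _
  set Fw := (Ls.flatMap blk).foldl (stp (edg ty) act) ∅ with hFw
  have h1 := private_phase (ty := ty) (act := act) (x := x) hv hx Ls hnd ∅ hF0 (by simp)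
  rw [← hFw] at h1
  have hFwf : Forest (edg ty) Fw := forest_foldl act _ hF0
  have h2 := hub_phase (ty := ty) (act := act) (x := x) hC hx' [0, 1, 2] Fw hFwf
  have h3 : accepted (edg ty) act (Ls.flatMap blk ++ hubEdges) =
      (([0, 1, 2] : List (Fin 3)).map (Sum.inr : Fin 3 → (P × Fin 4) ⊕ Fin 3)).foldl
        (stp (edg ty) act) Fw := by
    rw [accepted_eq, List.foldl_append, ← hFw]
    rfl
  rw [h3]
  set Fe := (([0, 1, 2] : List (Fin 3)).map (Sum.inr : Fin 3 → (P × Fin 4) ⊕ Fin 3)).foldl
        (stp (edg ty) act) Fw with hFe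
  have h4 : (1 : ℝ) ≤ kap (hubRel ty Fe) := by exact_mod_cast one_le_kap _
  have h5 : (kap (hubRel ty (∅ : Finset ((P × Fin 4) ⊕ Fin 3))) : ℝ) ≤ 4 := by
    exact_mod_cast kap_le_four _
  have h6 : val x ∅ = 0 := by simp [val]
  have h7 : (0 : ℝ) ≤ kap (hubRel ty Fw) := Nat.cast_nonneg _
  have h8 : (kap (hubRel ty Fw) : ℝ) ≤ 4 := by exact_mod_cast kap_le_four _
  rw [h6] at h1
  constructor
  · nlinarith
  · intro hQ
    have h9 : Q ≤ hubRel ty Fw := by
      apply hQ
      intro i p p' hp hp'
      have hm : ∀ q, (Sum.inl (i, q) : (P × Fin 4) ⊕ Fin 3) ∈ Ls.flatMap blk := by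
        intro q
        rw [List.mem_flatMap]
        refine ⟨i, hall i, ?_⟩
        unfold blk
        rw [List.mem_map]
        refine ⟨q, ?_, rfl⟩
        fin_cases q <;> simp
      have r1 := reachable_of_mem (Ls.flatMap blk) ∅ hF0 _ (hm p) hp
        (a := Sum.inr i) (b := Sum.inl (hubAt (ty i) p)) (by simp) rfl
      have r2 := reachable_of_mem (Ls.flatMap blk) ∅ hF0 _ (hm p') hp'
        (a := Sum.inr i) (b := Sum.inl (hubAt (ty i) p')) (by simp) rfl
      exact r1.symm.trans r2
    have h10 : (kap (hubRel ty Fw) : ℝ) ≤ kap Q := by exact_mod_cast kap_mono h9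
    nlinarith

end Pool.Agent.R566.Prophet
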