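import Pool.Agent.R566.Prophet.Path

set_option autoImplicit false

open MeasureTheory
open scoped ENNReal BigOperators

namespace Pool.Agent.R566.Prophet

/-! ### Two-point distributions -/

/-- The Bernoulli measure. -/
noncomputable def bern (q : ℝ) : Measure Bool :=
  ENNReal.ofReal (1 - q) • Measure.dirac false + ENNReal.ofReal q • Measure.dirac true

lemma bern_prob {q : ℝ} (h0 : 0 ≤ q) (h1 : q ≤ 1) : IsProbabilityMeasure (bern q) := by
  constructor
  unfold bern
  simp only [Measure.coe_add, Measure.coe_smul, Pi.add_apply, Pi.smul_apply, measure_univ,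
    smul_eq_mul, mul_one]
  rw [← ENNReal.ofReal_add (by linarith) h0]
  simp

lemma bern_singleton (q : ℝ) (b : Bool) :
    bern q {b} = ENNReal.ofReal (if b then q else 1 - q) := by
  unfold bern
  cases b <;> simp

/-- The distribution of a variable with the value `v` with probability `q`, otherwise `0`. -/
noncomputable def twoPoint (q v : ℝ) : Measure ℝ :=
  (bern q).map (fun b => if b then v else 0)

lemma twoPoint_prob {q : ℝ} (v : ℝ) (h0 : 0 ≤ q) (h1 : q ≤ 1) :
    IsProbabilityMeasure (twoPoint q v) := by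
  have := bern_prob h0 h1
  exact Measure.isProbabilityMeasure_map (measurable_of_finite _).aemeasurable

lemma twoPoint_nonneg {q v : ℝ} (hv : 0 ≤ v) : twoPoint q v (Set.Iio 0) = 0 := by
  unfold twoPoint
  rw [Measure.map_apply (measurable_of_finite _) measurableSet_Iio]
  have : (fun b : Bool => if b = true then v else 0) ⁻¹' Set.Iio 0 = ∅ := by
    ext b
    cases b <;> simp [hv]
  rw [this]
  simp

lemma twoPoint_mean {q v : ℝ} (h0 : 0 ≤ q) (h1 : q ≤ 1) :
    ∫⁻ x, ENNReal.ofReal x ∂(twoPoint q v) ≠ ∞ := by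
  unfold twoPoint
  rw [lintegral_map (by fun_prop) (measurable_of_finite _)]
  have := bern_prob h0 h1
  rw [lintegral_fintype]
  apply ne_of_lt
  apply ENNReal.sum_lt_top.2
  intro b _
  exact ENNReal.mul_lt_top ENNReal.ofReal_lt_top (measure_lt_top _ _)

/-! ### Expectations over finite products -/

section finite

set_option linter.unusedSectionVars false

variable {E : Type} [Fintype E] [DecidableEq E]

/-- The weight of an outcome. -/
noncomputable def wgt (q : E → ℝ) (ω : E → Bool) : ℝ := ∏ e, if ω e then q e else 1 - q e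

lemma wgt_nonneg {q : E → ℝ} (h0 : ∀ e, 0 ≤ q e) (h1 : ∀ e, q e ≤ 1) (ω : E → Bool) :
    0 ≤ wgt q ω := by
  unfold wgt
  apply Finset.prod_nonneg
  intro e _
  split_ifs
  · exact h0 e
  · linarith [h1 e]

lemma lintegral_bern {q : E → ℝ} (h0 : ∀ e, 0 ≤ q e) (h1 : ∀ e, q e ≤ 1) (G : (E → Bool) → ℝ)
    (hG : ∀ ω, 0 ≤ G ω) :
    ∫⁻ ω, ENNReal.ofReal (G ω) ∂(Measure.pi fun e => bern (q e)) =
      ENNReal.ofReal (∑ ω, wgt q ω * G ω) := by
  have hp : ∀ e, IsProbabilityMeasure (bern (q e)) := fun e => bern_prob (h0 e) (h1 e)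
  rw [lintegral_fintype, ENNReal.ofReal_sum_of_nonneg
    (fun ω _ => mul_nonneg (wgt_nonneg h0 h1 ω) (hG ω))]
  apply Finset.sum_congr rfl
  intro ω _
  rw [Measure.pi_singleton, ENNReal.ofReal_mul (wgt_nonneg h0 h1 ω), mul_comm]
  congr 1
  unfold wgt
  rw [ENNReal.ofReal_prod_of_nonneg]
  · apply Finset.prod_congr rfl
    intro e _
    rw [bern_singleton]
  · intro e _
    split_ifs
    · exact h0 e
    · linarith [h1 e]

/-- The values belonging to an outcome. -/
noncomputable def outcome (v : E → ℝ) (ω : E → Bool) : E → ℝ := fun e => if ω e then v e else 0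

lemma pi_twoPoint {q v : E → ℝ} (h0 : ∀ e, 0 ≤ q e) (h1 : ∀ e, q e ≤ 1) :
    (Measure.pi fun e => twoPoint (q e) (v e)) =
      (Measure.pi fun e => bern (q e)).map (outcome v) := by
  have hp : ∀ e, IsProbabilityMeasure (bern (q e)) := fun e => bern_prob (h0 e) (h1 e)
  have hp' : ∀ e, IsProbabilityMeasure ((bern (q e)).map (fun b => if b = true then v e else 0)) :=
    fun e => twoPoint_prob (v e) (h0 e) (h1 e)
  unfold twoPoint outcome
  exact (Measure.pi_map_pi (μ := fun e => bern (q e))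
    (f := fun e b => if b = true then v e else 0)
    (fun e => (measurable_of_finite _).aemeasurable)).symm

lemma sum_wgt (q : E → ℝ) : ∑ ω, wgt q ω = 1 := by
  unfold wgt
  have h := Finset.prod_univ_sum (fun _ : E => (Finset.univ : Finset Bool))
    (fun e b => if b = true then q e else 1 - q e)
  rw [Fintype.piFinset_univ] at h
  rw [← h]
  apply Finset.prod_eq_one
  intro e _
  simp

end finite

/-! ### The probability space of the instance -/

/-- The probability that the edge in a given position has a nonzero value. -/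
noncomputable def qp (ε : ℝ) (p : Fin 4) : ℝ := if p.val < 2 then 1 / 2 else ε

/-- The nonzero value of the edge in a given position. -/
noncomputable def vp (ε : ℝ) (p : Fin 4) : ℝ := if p.val < 2 then 1 else 1 / (2 * ε)

variable {P : Type} [Fintype P] [DecidableEq P]

/-- Probabilities. -/
noncomputable def qq (P : Type) (ε : ℝ) : (P × Fin 4) ⊕ Fin 3 → ℝ
  | Sum.inl (_, p) => qp ε p
  | Sum.inr _ => 1

/-- Nonzero values. -/
noncomputable def vv (P : Type) (ε C : ℝ) : (P × Fin 4) ⊕ Fin 3 → ℝ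
  | Sum.inl (_, p) => vp ε p
  | Sum.inr _ => C

/-- Weight of the outcome at one private vertex. -/
noncomputable def wb (ε : ℝ) (b : Fin 4 → Bool) : ℝ := wgt (qp ε) b

/-- Expectation of a function of the outcomes at the private vertices. -/
noncomputable def Ex (ε : ℝ) (g : (P → Fin 4 → Bool) → ℝ) : ℝ :=
  ∑ β : P → Fin 4 → Bool, (∏ i, wb ε (β i)) * g β

lemma sum_wb (ε : ℝ) : ∑ b, wb ε b = 1 := sum_wgt _

lemma sum_eq_Ex (ε : ℝ) (g : (P → Fin 4 → Bool) → ℝ) :
    ∑ ω, wgt (qq P ε) ω * g (fun i p => ω (Sum.inl (i, p))) = Ex ε g := by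
  have h1 : ∑ ω, wgt (qq P ε) ω * g (fun i p => ω (Sum.inl (i, p))) =
      ∑ t : (P → Fin 4 → Bool) × (Fin 3 → Bool),
        ((∏ i, wb ε (t.1 i)) * wgt (fun _ : Fin 3 => (1 : ℝ)) t.2) * g t.1 := by
    let e1 : ((P × Fin 4) ⊕ Fin 3 → Bool) ≃ (P → Fin 4 → Bool) × (Fin 3 → Bool) :=
      (Equiv.sumArrowEquivProdArrow _ _ _).trans
        (Equiv.prodCongr (Equiv.curry _ _ _) (Equiv.refl _))
    refine Fintype.sum_equiv e1 _ _ (fun ω => ?_)
    have h2 : wgt (qq P ε) ω = (∏ i, wb ε ((e1 ω).1 i)) * wgt (fun _ : Fin 3 => (1 : ℝ)) (e1 ω).2 := by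
      unfold wgt wb wgt
      rw [Fintype.prod_sum_type, Fintype.prod_prod_type]
      rfl
    rw [h2]
    rfl
  rw [h1, Fintype.sum_prod_type]
  unfold Ex
  apply Finset.sum_congr rfl
  intro β _
  have h3 : ∑ y : Fin 3 → Bool, ((∏ i, wb ε (β i)) * wgt (fun _ : Fin 3 => (1 : ℝ)) y) * g β =
      ((∏ i, wb ε (β i)) * g β) * ∑ y : Fin 3 → Bool, wgt (fun _ : Fin 3 => (1 : ℝ)) y := by
    rw [Finset.mul_sum]
    apply Finset.sum_congr rfl
    intro y _
    ring
  rw [h3, sum_wgt, mul_one]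

lemma Ex_prod (ε : ℝ) (g : P → (Fin 4 → Bool) → ℝ) :
    Ex ε (fun β => ∏ i, g i (β i)) = ∏ i, ∑ b, wb ε b * g i b := by
  unfold Ex
  have h := Finset.prod_univ_sum (fun _ : P => (Finset.univ : Finset (Fin 4 → Bool)))
    (fun i b => wb ε b * g i b)
  rw [Fintype.piFinset_univ] at h
  rw [h]
  apply Finset.sum_congr rfl
  intro β _
  rw [Finset.prod_mul_distrib]

lemma Ex_single (ε : ℝ) (i : P) (f : (Fin 4 → Bool) → ℝ) :
    Ex ε (fun β => f (β i)) = ∑ b, wb ε b * f b := by
  have h := Ex_prod ε (fun (j : P) b => if j = i then f b else 1)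
  have h1 : (fun β : P → Fin 4 → Bool => ∏ j, (if j = i then f (β j) else 1)) =
      fun β => f (β i) := by
    funext β
    rw [Finset.prod_ite_eq' Finset.univ i (fun j => f (β j))]
    simp
  rw [h1] at h
  rw [h]
  rw [Finset.prod_eq_single i]
  · simp
  · intro j _ hj
    simp [hj, sum_wb]
  · simp

lemma Ex_prod_subset (ε : ℝ) (J : Finset P) (g : P → (Fin 4 → Bool) → ℝ) :
    Ex ε (fun β => ∏ i ∈ J, g i (β i)) = ∏ i ∈ J, ∑ b, wb ε b * g i b := by
  have h := Ex_prod ε (fun (j : P) b => if j ∈ J then g j b else 1)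
  have h1 : (fun β : P → Fin 4 → Bool => ∏ j, (if j ∈ J then g j (β j) else 1)) =
      fun β => ∏ i ∈ J, g i (β i) := by
    funext β
    rw [Finset.prod_ite_mem]
    simp
  rw [h1] at h
  rw [h]
  have h2 : ∀ j, (∑ b, wb ε b * (if j ∈ J then g j b else 1)) =
      if j ∈ J then ∑ b, wb ε b * g j b else 1 := by
    intro j
    split_ifs
    · rfl
    · simp [sum_wb]
  simp_rw [h2]
  rw [Finset.prod_ite_mem]
  simp

lemma Ex_add (ε : ℝ) (g h : (P → Fin 4 → Bool) → ℝ) :
    Ex ε (fun β => g β + h β) = Ex ε g + Ex ε h := by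
  unfold Ex
  rw [← Finset.sum_add_distrib]
  apply Finset.sum_congr rfl
  intro β _
  ring

lemma Ex_const_mul (ε : ℝ) (c : ℝ) (g : (P → Fin 4 → Bool) → ℝ) :
    Ex ε (fun β => c * g β) = c * Ex ε g := by
  unfold Ex
  rw [Finset.mul_sum]
  apply Finset.sum_congr rfl
  intro β _
  ring

lemma Ex_const (ε : ℝ) (c : ℝ) : Ex ε (fun _ : P → Fin 4 → Bool => c) = c := by
  have h := Ex_prod (P := P) ε (fun _ _ => 1)
  simp only [Finset.prod_const_one, mul_one, sum_wb] at h
  have h2 := Ex_const_mul (P := P) ε c (fun _ => 1)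
  simp only [mul_one] at h2
  rw [h2, h, mul_one]

lemma Ex_sum {A : Type} (ε : ℝ) (s : Finset A) (g : A → (P → Fin 4 → Bool) → ℝ) :
    Ex ε (fun β => ∑ a ∈ s, g a β) = ∑ a ∈ s, Ex ε (g a) := by
  classical
  induction s using Finset.induction_on with
  | empty => simp [Ex_const]
  | insert a s ha ih =>
    simp only [Finset.sum_insert ha]
    rw [Ex_add, ih]

lemma wb_nonneg {ε : ℝ} (h0 : 0 ≤ ε) (h1 : ε ≤ 1) (b : Fin 4 → Bool) : 0 ≤ wb ε b := by
  apply wgt_nonneg
  · intro p; unfold qp; split_ifs <;> linarith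
  · intro p; unfold qp; split_ifs <;> linarith

lemma Ex_mono {ε : ℝ} (h0 : 0 ≤ ε) (h1 : ε ≤ 1) {g h : (P → Fin 4 → Bool) → ℝ}
    (hgh : ∀ β, g β ≤ h β) : Ex ε g ≤ Ex ε h := by
  unfold Ex
  apply Finset.sum_le_sum
  intro β _
  exact mul_le_mul_of_nonneg_left (hgh β) (Finset.prod_nonneg fun i _ => wb_nonneg h0 h1 _)

/-! ### One private vertex -/

lemma sum_four (F : Bool → Bool → Bool → Bool → ℝ) :
    ∑ b : Fin 4 → Bool, F (b 0) (b 1) (b 2) (b 3) =
      ∑ b0, ∑ b1, ∑ b2, ∑ b3, F b0 b1 b2 b3 := by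
  let e : (Fin 4 → Bool) ≃ Bool × Bool × Bool × Bool :=
    { toFun := fun b => (b 0, b 1, b 2, b 3)
      invFun := fun t => ![t.1, t.2.1, t.2.2.1, t.2.2.2]
      left_inv := by
        intro b
        funext i
        fin_cases i <;> rfl
      right_inv := by
        intro t
        rfl }
  have h := Fintype.sum_equiv e (fun b => F (b 0) (b 1) (b 2) (b 3))
    (fun t => F t.1 t.2.1 t.2.2.1 t.2.2.2) (fun b => rfl)
  rw [h, Fintype.sum_prod_type]
  apply Finset.sum_congr rfl
  intro b0 _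
  rw [Fintype.sum_prod_type]
  apply Finset.sum_congr rfl
  intro b1 _
  rw [Fintype.sum_prod_type]

lemma wb_eq (ε : ℝ) (b : Fin 4 → Bool) : wb ε b =
    (1 / 2) * (1 / 2) * (if b 2 then ε else 1 - ε) * (if b 3 then ε else 1 - ε) := by
  unfold wb wgt
  rw [Fin.prod_univ_four]
  have h0 : qp ε 0 = 1 / 2 := by simp [qp]
  have h1 : qp ε 1 = 1 / 2 := by simp [qp]
  have h2 : qp ε 2 = ε := by simp [qp]
  have h3 : qp ε 3 = ε := by simp [qp]
  rw [h0, h1, h2, h3]
  congr 2
  congr 1
  · split_ifs <;> norm_num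
  · split_ifs <;> norm_num

end Pool.Agent.R566.Prophet
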